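import Pool.Agent.Lib.MP_845f45_al.Car2

/-! Random hexagon apartments in a right-angled Coxeter group. -/

namespace Pool.Agent.Lib.CD53

open Relation Pool.Agent.Lib.MP_845f45_al

variable {V : Type} [DecidableEq V] {G : SimpleGraph V} [DecidableRel G.Adj]

variable (G) in
noncomputable def ln (v : WG G) : ℕ := (csG G).length v

variable (G) in
noncomputable def mu (v : WG G) (a : V) : WG G := v * (csG G).simple a

variable (G) in
def As (v : WG G) (a : V) : Prop := ln G (mu G v a) = ln G v + 1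

variable (G) in
def De (v : WG G) (a : V) : Prop := ln G (mu G v a) + 1 = ln G v

lemma mu_mu (v : WG G) (a : V) : mu G (mu G v a) a = v :=
  CoxeterSystem.simple_mul_simple_cancel_right _ _

lemma as_or_de (v : WG G) (a : V) : As G v a ∨ De G v a := (csG G).length_mul_simple v a

lemma As.not_de {v : WG G} {a : V} (h : As G v a) : ¬ De G v a := by
  unfold As De at *; omega

lemma As.de {v : WG G} {a : V} (h : As G v a) : De G (mu G v a) a := by
  unfold As De at *; rw [mu_mu]; omega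

lemma De.as {v : WG G} {a : V} (h : De G v a) : As G (mu G v a) a := by
  unfold As De at *; rw [mu_mu]; omega

lemma mu_comm (v : WG G) {a b : V} (h : G.Adj a b) : mu G (mu G v a) b = mu G (mu G v b) a := by
  unfold mu; rw [mul_assoc, simple_comm h, mul_assoc]

lemma de_of_mx {v : WG G} {p : ℕ × V} (h : IsMx G (phi G v) p) : De G v p.2 := by
  unfold De ln mu
  rw [length_eq_card, length_eq_card, phi_mul_mx h, Finset.card_erase_add_one h.1]

lemma As.key {v : WG G} {a d : V} (h : As G v a) (hd : De G (mu G v a) d) (hne : d ≠ a) :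
    De G v d ∧ G.Adj a d := by
  rcases act_cases (G := G) (phi G v) a with ⟨q, q1, rfl, -⟩ | ⟨l, -, q1, q2, -⟩
  · exact absurd (de_of_mx q1) h.not_de
  have e : phi G (mu G v a) = insert (l, a) (phi G v) := (phi_mul v a).trans q1
  rcases act_cases (G := G) (phi G (mu G v a)) d with ⟨p, p1, rfl, -⟩ | ⟨l', r1, r2, -⟩
  · rw [e] at p1
    have p2 : p ∈ phi G v := (Finset.mem_insert.1 p1.1).resolve_left fun e' => hne (by rw [e'])
    refine ⟨de_of_mx (p1.mono (Finset.subset_insert _ _) p2), ?_⟩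
    rcases le_or_gt l p.1 with c | c
    · exact (q2 p p2 c).symm
    · exact p1.2 (l, a) (Finset.mem_insert_self _ _) c
  · exfalso
    have e2 : phi G (mu G (mu G v a) d) = insert (l', d) (phi G (mu G v a)) :=
      (phi_mul _ d).trans r2
    unfold De ln at hd
    rw [length_eq_card, length_eq_card, e2, Finset.card_insert_of_notMem r1] at hd
    omega

lemma De.adj {v : WG G} {d d' : V} (h : De G v d) (h' : De G v d') (hne : d' ≠ d) : G.Adj d d' :=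
  (h.as.key (by rwa [mu_mu]) hne).2

lemma De.de {v : WG G} {d d' : V} (h : De G v d) (h' : De G v d') (hne : d' ≠ d) :
    De G (mu G v d) d' := (h.as.key (by rwa [mu_mu]) hne).1

lemma As.as {v : WG G} {a b : V} (h : As G v a) (h' : As G v b) (e : G.Adj a b) :
    As G (mu G v a) b :=
  (as_or_de _ _).resolve_right fun c => h'.not_de (h.key c e.ne').1

lemma De.swap {v : WG G} {a d : V} (h : De G v d) (h' : As G v a) (e : G.Adj a d) :
    As G (mu G v d) a ∧ De G (mu G v a) d := by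
  have e1 := mu_comm v e
  have h1 := as_or_de (mu G v d) a
  have h2 := as_or_de (mu G v a) d
  unfold As De at *
  rw [← e1] at h1 ⊢
  omega

lemma ln_eq_zero {v : WG G} : ln G v = 0 ↔ v = 1 := (csG G).length_eq_zero_iff

lemma ln_one : ln G 1 = 0 := ln_eq_zero.2 rfl

lemma exists_de {v : WG G} (h : ln G v ≠ 0) : ∃ d, De G v d := by
  obtain ⟨p, hp⟩ := exists_mx (G := G) (X := phi G v) (by
    rw [← Finset.card_pos, ← length_eq_card]; exact Nat.pos_of_ne_zero h)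
  exact ⟨_, de_of_mx hp⟩

lemma As.pre {v : WG G} {a : V} (h : As G v a) : Pre G v (mu G v a) := by
  refine pre_of_length ?_
  unfold As ln mu at *
  rw [inv_mul_cancel_left, CoxeterSystem.length_simple]
  omega

/-! ### Hexagons -/

variable (G) in
/-- an induced hexagon inside the set `B` -/
def Hex (B : Set V) (h : Fin 6 → V) : Prop :=
  (∀ i, h i ∈ B) ∧ ∀ i j, G.Adj (h i) (h j) ↔ (j = i + 1 ∨ i = j + 1)

section hex
omit [DecidableEq V] [DecidableRel G.Adj]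
variable {B : Set V} {h : Fin 6 → V}

lemma Hex.inj (H : Hex G B h) {i j : Fin 6} (e : h i = h j) : i = j := by
  have k1 := (H.2 i (i + 1)).2 (Or.inl rfl)
  have k2 := (H.2 i (i - 1)).2 (Or.inr (by simp))
  rw [e, H.2] at k1 k2
  clear e
  revert i j
  decide

lemma Hex.two (H : Hex G B h) {a : V} (ha : a ∈ Set.range h) : ∃ p p', p ≠ p' ∧ p ∈ B ∧ p' ∈ B ∧
    G.Adj p a ∧ G.Adj p' a ∧ ∀ b, G.Adj b a → (b ∈ Set.range h ↔ b = p ∨ b = p') := by
  obtain ⟨i, rfl⟩ := ha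
  refine ⟨h (i - 1), h (i + 1), fun e => ?_, H.1 _, H.1 _, (H.2 _ _).2 (Or.inl (by simp)),
    (H.2 _ _).2 (Or.inr rfl), fun b hb => ⟨?_, ?_⟩⟩
  · have := H.inj e
    clear e
    revert i
    decide
  · rintro ⟨j, rfl⟩
    rcases (H.2 _ _).1 hb with rfl | rfl
    · exact Or.inl (by simp)
    · exact Or.inr rfl
  · rintro (rfl | rfl) <;> exact ⟨_, rfl⟩

lemma Hex.other (H : Hex G B h) {a d : V} (ha : a ∈ Set.range h) (hd : d ∈ Set.range h)
    (e : G.Adj d a) : ∃ p, p ≠ d ∧ p ∈ B ∧ G.Adj p a ∧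
      ∀ b, G.Adj b a → (b ∈ Set.range h ↔ b = p ∨ b = d) := by
  obtain ⟨p, p', h1, h2, h3, h4, h5, h6⟩ := H.two ha
  rcases (h6 d e).1 hd with rfl | rfl
  · exact ⟨p', h1.symm, h3, h5, fun b hb => (h6 b hb).trans or_comm⟩
  · exact ⟨p, h1, h2, h4, h6⟩

lemma Hex.tri (H : Hex G B h) {a b c : V} (ha : a ∈ Set.range h) (hb : b ∈ Set.range h)
    (hc : c ∈ Set.range h) (e1 : G.Adj a b) (e2 : G.Adj b c) : ¬ G.Adj a c := by
  obtain ⟨i, rfl⟩ := ha
  obtain ⟨j, rfl⟩ := hb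
  obtain ⟨k, rfl⟩ := hc
  rw [H.2] at *
  revert i j k
  decide

lemma Hex.sq (H : Hex G B h) {a b c d : V} (ha : a ∈ Set.range h) (hb : b ∈ Set.range h)
    (hc : c ∈ Set.range h) (hd : d ∈ Set.range h) (e1 : G.Adj a b) (e2 : G.Adj b c)
    (e3 : G.Adj c d) (n1 : a ≠ c) (n2 : b ≠ d) : ¬ G.Adj d a := by
  obtain ⟨i, rfl⟩ := ha
  obtain ⟨j, rfl⟩ := hb
  obtain ⟨k, rfl⟩ := hc
  obtain ⟨l, rfl⟩ := hd
  have m1 : i ≠ k := fun e => n1 (e ▸ rfl)
  have m2 : j ≠ l := fun e => n2 (e ▸ rfl)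
  clear n1 n2
  rw [H.2] at *
  omega

lemma arc (δ : Fin 6 → Bool) (hδ : ∀ i j, δ i → δ j → i = j ∨ j = i + 1 ∨ i = j + 1) (i j : Fin 6)
    (hi : ¬ δ i) (hj : ¬ δ j) : (∀ t : Fin 6, t ≤ j - i → ¬ δ (i + t)) ∨
      ∀ t : Fin 6, t ≤ i - j → ¬ δ (j + t) := by
  revert δ i j
  decide +kernel

lemma Hex.conn (H : Hex G B h) (D : V → Prop) (hD : ∀ a b, D a → D b → b ≠ a → G.Adj a b)
    {a b : V} (ha : a ∈ Set.range h) (hb : b ∈ Set.range h) (na : ¬ D a) (nb : ¬ D b) :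
    ReflTransGen (fun p q => p ∈ Set.range h ∧ q ∈ Set.range h ∧ ¬ D p ∧ ¬ D q ∧ G.Adj p q) a b := by
  classical
  obtain ⟨i, rfl⟩ := ha
  obtain ⟨j, rfl⟩ := hb
  have key : ∀ (i : Fin 6) (m : ℕ) (hm : m < 6), (∀ t : Fin 6, t ≤ ⟨m, hm⟩ → ¬ D (h (i + t))) →
      ReflTransGen (fun p q => p ∈ Set.range h ∧ q ∈ Set.range h ∧ ¬ D p ∧ ¬ D q ∧ G.Adj p q)
        (h i) (h (i + ⟨m, hm⟩)) := by
    intro i m
    induction m with
    | zero => intro _ _; simpa using ReflTransGen.refl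
    | succ m ih =>
      intro hm ht
      have l : (⟨m, by omega⟩ : Fin 6) ≤ ⟨m + 1, hm⟩ := Nat.le_succ m
      refine (ih (by omega) fun t h1 => ht t (h1.trans l)).tail
        ⟨⟨_, rfl⟩, ⟨_, rfl⟩, ht _ l, ht _ le_rfl, (H.2 _ _).2 (Or.inl ?_)⟩
      rw [add_assoc]
      congr 1
      ext
      simp [Fin.val_add, Nat.mod_eq_of_lt hm]
  rcases arc (fun i => decide (D (h i))) (fun i j e1 e2 => by
    by_cases e : i = j
    · exact Or.inl e
    · exact Or.inr ((H.2 _ _).1 (hD _ _ (by simpa using e1) (by simpa using e2)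
        fun e' => e (H.inj e').symm))) i j (by simpa using na) (by simpa using nb) with c | c
  · have := key i (j - i).1 (j - i).2 fun t ht => by simpa using c t ht
    simpa using this
  · have := key j (i - j).1 (i - j).2 fun t ht => by simpa using c t ht
    simp only [Fin.eta, add_sub_cancel] at this
    exact ReflTransGen.mono (fun _ _ e => ⟨e.2.1, e.1, e.2.2.2.1, e.2.2.1, e.2.2.2.2.symm⟩) _ _
      this.swap

end hex

variable (G) in
/-- branching: paths with three or four vertices close up to `n` hexagons, disjoint off the path -/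
structure Br (B : Set V) (n : ℕ) : Prop where
  three : ∀ p₀ p₁ p₂, p₀ ∈ B → p₁ ∈ B → p₂ ∈ B → G.Adj p₀ p₁ → G.Adj p₂ p₁ → p₀ ≠ p₂ →
    ∃ H : Fin n → Fin 6 → V, (∀ γ, Hex G B (H γ) ∧ H γ 0 = p₀ ∧ H γ 1 = p₁ ∧ H γ 2 = p₂) ∧
      ∀ γ γ' i j, 3 ≤ i → 3 ≤ j → H γ i = H γ' j → γ = γ'
  four : ∀ p₀ p₁ p₂ p₃, p₀ ∈ B → p₁ ∈ B → p₂ ∈ B → p₃ ∈ B → G.Adj p₀ p₁ → G.Adj p₂ p₁ →
    G.Adj p₃ p₂ → p₀ ≠ p₂ → p₃ ≠ p₁ →
    ∃ H : Fin n → Fin 6 → V, (∀ γ, Hex G B (H γ) ∧ H γ 0 = p₀ ∧ H γ 1 = p₁ ∧ H γ 2 = p₂ ∧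
      H γ 3 = p₃) ∧ ∀ γ γ' i j, 4 ≤ i → 4 ≤ j → H γ i = H γ' j → γ = γ'

variable (G) in
def Good (B : Set V) {n : ℕ} (v : WG G) (Y : WG G → Fin 6 → V) (H : Fin n → Fin 6 → V) : Prop :=
  (∀ γ, Hex G B (H γ) ∧ ∀ d, De G v d → d ∈ Set.range (H γ) ∧
    ∀ b, G.Adj b d → (b ∈ Set.range (H γ) ↔ b ∈ Set.range (Y (mu G v d)))) ∧
  ∀ γ γ', γ ≠ γ' → ∀ b ∈ Set.range (H γ), b ∈ Set.range (H γ') →
    ∃ d, De G v d ∧ (b = d ∨ G.Adj b d)

variable (G) in
open Classical in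
noncomputable def pick (B : Set V) (n : ℕ) (h₀ : Fin 6 → V) (v : WG G) (Y : WG G → Fin 6 → V) :
    Fin n → Fin 6 → V :=
  if h : ∃ H : Fin n → Fin 6 → V, Good G B v Y H then h.choose else fun _ => h₀

lemma pick_spec {B : Set V} {n : ℕ} (h₀ : Fin 6 → V) {v : WG G} {Y : WG G → Fin 6 → V}
    (h : ∃ H : Fin n → Fin 6 → V, Good G B v Y H) : Good G B v Y (pick G B n h₀ v Y) := by
  rw [pick, dif_pos h]; exact h.choose_spec

variable (G) in
noncomputable def Zl (B : Set V) {n : ℕ} (h₀ : Fin 6 → V) (x : ℕ → Fin n) :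
    ℕ → WG G → Fin 6 → V
  | 0, _ => h₀
  | k + 1, v => pick G B n h₀ v (Zl B h₀ x k) (x (k + 1))

variable (G) in
/-- the hexagon at `v` -/
noncomputable def ZZ (B : Set V) {n : ℕ} (h₀ : Fin 6 → V) (x : ℕ → Fin n) (v : WG G) : Fin 6 → V :=
  Zl G B h₀ x (ln G v) v

variable (G) in
/-- the apartment -/
inductive InA (Z : WG G → Fin 6 → V) : WG G → Prop
  | one : InA Z 1
  | step {v : WG G} {a : V} : InA Z v → a ∈ Set.range (Z v) → As G v a → InA Z (mu G v a)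

variable {B : Set V} {n : ℕ} {h₀ : Fin 6 → V}

lemma Zl_dep {x x' : ℕ → Fin n} (k : ℕ) (h : ∀ j ≤ k, x j = x' j) :
    Zl G B h₀ x k = Zl G B h₀ x' k := by
  induction k with
  | zero => rfl
  | succ k ih => funext v; rw [Zl, Zl, ih fun j hj => h j (by omega), h (k + 1) le_rfl]

lemma InA.dep {x x' : ℕ → Fin n} {v : WG G} (h : InA G (ZZ G B h₀ x) v)
    (e : ∀ j < ln G v, x j = x' j) : InA G (ZZ G B h₀ x') v := by
  induction h with
  | one => exact InA.one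
  | @step v a _ h2 h3 ih =>
    unfold As at h3
    refine (ih fun j hj => e j (by omega)).step ?_ h3
    rwa [ZZ, ← Zl_dep _ fun j hj => e j (by omega)]

lemma InA.cases {Z : WG G → Fin 6 → V} {v : WG G} (h : InA G Z v) :
    v = 1 ∨ ∃ u a, InA G Z u ∧ a ∈ Set.range (Z u) ∧ As G u a ∧ v = mu G u a := by
  cases h with
  | one => exact Or.inl rfl
  | step h1 h2 h3 => exact Or.inr ⟨_, _, h1, h2, h3, rfl⟩

variable (G B h₀) in
def Inv (x : ℕ → Fin n) (v : WG G) : Prop :=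
  Hex G B (ZZ G B h₀ x v) ∧
  (∀ d, De G v d → InA G (ZZ G B h₀ x) (mu G v d) ∧ d ∈ Set.range (ZZ G B h₀ x (mu G v d)) ∧
    d ∈ Set.range (ZZ G B h₀ x v) ∧ ∀ b, G.Adj b d →
      (b ∈ Set.range (ZZ G B h₀ x v) ↔ b ∈ Set.range (ZZ G B h₀ x (mu G v d)))) ∧
  ∀ k, ln G v = k + 1 → ∃ H : Fin n → Fin 6 → V, Good G B v (Zl G B h₀ x k) H

omit [DecidableEq V] in
lemma free_of {H : Fin n → Fin 6 → V} {m : Fin 6}
    (h1 : ∀ γ γ' i, i < m → H γ i = H γ' i)
    (h2 : ∀ γ γ' i j, m ≤ i → m ≤ j → H γ i = H γ' j → γ = γ') {γ γ' : Fin n} (hne : γ ≠ γ')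
    {b : V} (b1 : b ∈ Set.range (H γ)) (b2 : b ∈ Set.range (H γ')) : ∃ i < m, b = H γ i := by
  obtain ⟨i, rfl⟩ := b1
  obtain ⟨j, e⟩ := b2
  by_cases hi : i < m
  · exact ⟨i, hi, rfl⟩
  by_cases hj : j < m
  · exact ⟨j, hj, by rw [h1 γ γ' j hj, e]⟩
  exact absurd (h2 _ _ _ _ (not_lt.1 hi) (not_lt.1 hj) e.symm) hne

omit [DecidableEq V] [DecidableRel G.Adj] in
lemma Hex.nb {h : Fin 6 → V} (H : Hex G B h) (i : Fin 6) {b : V} (hb : G.Adj b (h (i + 1))) :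
    b ∈ Set.range h ↔ b = h i ∨ b = h (i + 2) := by
  constructor
  · rintro ⟨j, rfl⟩
    rcases (H.2 _ _).1 hb with e | rfl
    · exact Or.inl (by rw [add_right_cancel e])
    · exact Or.inr (by rw [add_assoc]; rfl)
  · rintro (rfl | rfl) <;> exact ⟨_, rfl⟩

theorem inv_of (hB : Br G B n) (h0 : Hex G B h₀) (x : ℕ → Fin n) (k : ℕ) :
    ∀ v, ln G v = k → InA G (ZZ G B h₀ x) v → Inv G B h₀ x v := by
  induction k using Nat.strong_induction_on with
  | _ k ih =>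
  intro v hk hv
  rcases hv.cases with rfl | ⟨u, a, u1, u2, u3, rfl⟩
  · refine ⟨by rwa [ZZ, ln_one], fun d hd => ?_, fun k e => ?_⟩
    · unfold De at hd; rw [ln_one] at hd; omega
    · rw [ln_one] at e; omega
  have lv : ln G (mu G u a) = ln G u + 1 := u3
  obtain ⟨iu1, iu2, -⟩ := ih _ (by omega) u rfl u1
  have s1 : ∀ d, De G (mu G u a) d → d ≠ a → G.Adj a d ∧ d ∈ Set.range (ZZ G B h₀ x u) ∧
      InA G (ZZ G B h₀ x) (mu G (mu G u a) d) ∧ Hex G B (ZZ G B h₀ x (mu G (mu G u a) d)) ∧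
      d ∈ Set.range (ZZ G B h₀ x (mu G (mu G u a) d)) ∧
      a ∈ Set.range (ZZ G B h₀ x (mu G (mu G u a) d)) := fun d hd hne => by
    obtain ⟨c1, c2⟩ := u3.key hd hne
    obtain ⟨d1, d2, d3, d4⟩ := iu2 d c1
    have c3 := (c1.swap u3 c2).1
    have c4 := d1.step ((d4 a c2).1 u2) c3
    obtain ⟨e1, e2, -⟩ := ih _ (by unfold De at hd; rw [← mu_comm u c2]; omega) _ rfl c4
    obtain ⟨-, -, e3, e4⟩ := e2 a c3.de
    rw [mu_mu] at e4
    rw [mu_comm u c2]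
    exact ⟨c2, d3, c4, e1, (e4 d c2.symm).2 d2, e3⟩
  have zl : ∀ d, De G (mu G u a) d →
      Zl G B h₀ x (ln G u) (mu G (mu G u a) d) = ZZ G B h₀ x (mu G (mu G u a) d) := fun d hd => by
    unfold De at hd
    rw [ZZ, show ln G (mu G (mu G u a) d) = ln G u by omega]
  have ex : ∃ H : Fin n → Fin 6 → V, Good G B (mu G u a) (Zl G B h₀ x (ln G u)) H := by
    have aB : a ∈ B := by obtain ⟨i, rfl⟩ := u2; exact iu1.1 i
    by_cases hd : ∃ d, De G (mu G u a) d ∧ d ≠ a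
    · obtain ⟨d, hd, hne⟩ := hd
      obtain ⟨c1, c2, -, c4, c5, c6⟩ := s1 d hd hne
      have dB : d ∈ B := by obtain ⟨i, rfl⟩ := c2; exact iu1.1 i
      obtain ⟨p, p1, p2, p3, p4⟩ := iu1.other u2 c2 c1.symm
      obtain ⟨q, q1, q2, q3, q4⟩ := c4.other c5 c6 c1
      obtain ⟨H, H1, H2⟩ := hB.four p a d q p2 aB dB q2 p3 c1.symm q3 p1 q1
      refine ⟨H, fun γ => ⟨(H1 γ).1, fun d' hd' => ?_⟩, fun γ γ' hγ b b1 b2 => ?_⟩
      · obtain ⟨f0, f1, f2, f3, f4⟩ := H1 γ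
        rw [zl d' hd']
        by_cases e : d' = a
        · subst e
          refine ⟨⟨1, f2⟩, fun b hb => ?_⟩
          rw [mu_mu, p4 b hb, f0.nb 0 (by rwa [zero_add, f2]), f1, zero_add, f3]
        · obtain rfl : d' = d := by
            by_contra e'
            obtain ⟨g1, g2, -⟩ := s1 d' hd' e
            exact iu1.tri u2 c2 g2 c1 (hd.adj hd' e') g1
          refine ⟨⟨2, f3⟩, fun b hb => ?_⟩
          rw [q4 b hb, f0.nb 1 (by rwa [show (1 + 1 : Fin 6) = 2 from rfl, f3]), f2,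
            show (1 + 2 : Fin 6) = 3 from rfl, f4, or_comm]
      · obtain ⟨i, hi, rfl⟩ := free_of (m := 4) (fun γ γ' i hi => by
          obtain ⟨-, f1, f2, f3, f4⟩ := H1 γ
          obtain ⟨-, g1, g2, g3, g4⟩ := H1 γ'
          fin_cases i <;> simp_all) H2 hγ b1 b2
        obtain ⟨-, f1, f2, f3, f4⟩ := H1 γ
        fin_cases i
        · exact ⟨a, u3.de, Or.inr (f1 ▸ p3)⟩
        · exact ⟨a, u3.de, Or.inl f2⟩
        · exact ⟨d, hd, Or.inl f3⟩
        · exact ⟨d, hd, Or.inr (f4 ▸ q3)⟩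
        · exact absurd hi (by decide)
        · exact absurd hi (by decide)
    · obtain ⟨p, q, p1, p2, p3, p4, p5, p6⟩ := iu1.two u2
      obtain ⟨H, H1, H2⟩ := hB.three p a q p2 aB p3 p4 p5 p1
      refine ⟨H, fun γ => ⟨(H1 γ).1, fun d' hd' => ?_⟩, fun γ γ' hγ b b1 b2 => ?_⟩
      · obtain ⟨f0, f1, f2, f3⟩ := H1 γ
        rw [zl d' hd']
        obtain rfl : d' = a := by_contra fun e => hd ⟨d', hd', e⟩
        refine ⟨⟨1, f2⟩, fun b hb => ?_⟩
        rw [mu_mu, p6 b hb, f0.nb 0 (by rwa [zero_add, f2]), f1, zero_add, f3]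
      · obtain ⟨i, hi, rfl⟩ := free_of (m := 3) (fun γ γ' i hi => by
          obtain ⟨-, f1, f2, f3⟩ := H1 γ
          obtain ⟨-, g1, g2, g3⟩ := H1 γ'
          fin_cases i <;> simp_all) H2 hγ b1 b2
        obtain ⟨-, f1, f2, f3⟩ := H1 γ
        fin_cases i
        · exact ⟨a, u3.de, Or.inr (f1 ▸ p4)⟩
        · exact ⟨a, u3.de, Or.inl f2⟩
        · exact ⟨a, u3.de, Or.inr (f3 ▸ p5)⟩
        · exact absurd hi (by decide)
        · exact absurd hi (by decide)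
        · exact absurd hi (by decide)
  have ez : ZZ G B h₀ x (mu G u a) =
      pick G B n h₀ (mu G u a) (Zl G B h₀ x (ln G u)) (x (ln G u + 1)) := by rw [ZZ, lv, Zl]
  obtain ⟨g1, g2⟩ := (pick_spec h₀ ex).1 (x (ln G u + 1))
  rw [← ez] at g1 g2
  refine ⟨g1, fun d hd => ?_, fun j hj => ?_⟩
  · obtain ⟨g3, g4⟩ := g2 d hd
    rw [zl d hd] at g4
    by_cases e : d = a
    · subst e
      exact ⟨by rwa [mu_mu], by rwa [mu_mu], g3, g4⟩
    · obtain ⟨-, -, c3, -, c5, -⟩ := s1 d hd e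
      exact ⟨c3, c5, g3, g4⟩
  · obtain rfl : j = ln G u := by omega
    exact ex

end Pool.Agent.Lib.CD53
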