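import Pool.Agent.Lib.CD53.Apt

/-! Apartments: counting, rays and chains. -/

namespace Pool.Agent.Lib.CD53

open Relation Pool.Agent.Lib.MP_845f45_al

variable {V : Type} [DecidableEq V] {G : SimpleGraph V} [DecidableRel G.Adj]
variable {B : Set V} {n : ℕ} {h₀ : Fin 6 → V}

variable (G) in
def Ray (r : ℕ → WG G) : Prop := ∀ k, ln G (r k) = k ∧ Pre G (r k) (r (k + 1))

lemma Ray.pre {r : ℕ → WG G} (h : Ray G r) {i j : ℕ} (hij : i ≤ j) : Pre G (r i) (r j) := by
  induction hij with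
  | refl => exact Pre.refl _
  | step _ ih => exact ih.tr (h _).2

section
variable (hB : Br G B n) (h0 : Hex G B h₀)
include hB h0

lemma inv {x : ℕ → Fin n} {v : WG G} (h : InA G (ZZ G B h₀ x) v) : Inv G B h₀ x v :=
  inv_of hB h0 x _ v rfl h

/-- One of the last two steps uses a letter which was chosen freely. -/
lemma recent {u : WG G} (hu : ln G u ≠ 0) : ∃ (w : WG G) (b : V),
    ln G w < ln G u ∧ ln G u ≤ ln G w + 2 ∧ ∀ x : ℕ → Fin n, InA G (ZZ G B h₀ x) u →
      InA G (ZZ G B h₀ x) w ∧ b ∈ Set.range (ZZ G B h₀ x w) ∧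
        ¬ ∃ d, De G w d ∧ (b = d ∨ G.Adj b d) := by
  obtain ⟨b, hb⟩ := exists_de hu
  have ab := hb.as
  have l1 : ln G (mu G u b) + 1 = ln G u := hb
  by_cases c1 : ∃ s, De G (mu G u b) s ∧ G.Adj b s
  swap
  · refine ⟨mu G u b, b, by omega, by omega, fun x hx => ?_⟩
    obtain ⟨a1, a2, -⟩ := (inv hB h0 hx).2.1 b hb
    refine ⟨a1, a2, ?_⟩
    rintro ⟨d, d1, rfl | d2⟩
    exacts [ab.not_de d1, c1 ⟨d, d1, d2⟩]
  obtain ⟨s, hs, bs⟩ := c1
  have l2 : ln G (mu G (mu G u b) s) + 1 = ln G (mu G u b) := hs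
  by_cases c2 : ∃ t, De G (mu G u b) t ∧ t ≠ s
  · obtain ⟨t, ht, ts⟩ := c2
    refine ⟨mu G (mu G u b) s, b, by omega, by omega, fun x hx => ?_⟩
    obtain ⟨a1, a2, -⟩ := (inv hB h0 hx).2.1 b hb
    obtain ⟨b1, b2, -, b4⟩ := (inv hB h0 a1).2.1 s hs
    have b5 := (b4 b bs).1 a2
    refine ⟨b1, b5, ?_⟩
    obtain ⟨c1, c2, -⟩ := inv hB h0 b1
    have t1 := hs.de ht ts
    have t2 := hs.adj ht ts
    have t3 := (c2 t t1).2.2.1
    rintro ⟨d, d1, rfl | d2⟩
    · exact (hs.swap ab bs).1.not_de d1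
    by_cases e : d = t
    · exact c1.tri b5 b2 t3 bs t2 (e ▸ d2)
    · exact c1.sq b5 b2 t3 (c2 d d1).2.2.1 bs t2 (t1.adj d1 e) (fun e => ab.not_de (e ▸ ht))
        (fun e => hs.as.not_de (e ▸ d1)) d2.symm
  · refine ⟨mu G (mu G u b) s, s, by omega, by omega, fun x hx => ?_⟩
    obtain ⟨a1, -⟩ := (inv hB h0 hx).2.1 b hb
    obtain ⟨b1, b2, -⟩ := (inv hB h0 a1).2.1 s hs
    refine ⟨b1, b2, ?_⟩
    rintro ⟨d, d1, rfl | d2⟩
    · exact hs.as.not_de d1
    · have := (d1.swap hs.as d2).2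
      rw [mu_mu] at this
      exact c2 ⟨d, this, d2.ne'⟩

lemma uniq {x x' : ℕ → Fin n} {w : WG G} {b : V} (hw : ln G w ≠ 0)
    (e : ∀ j < ln G w, x j = x' j) (h1 : InA G (ZZ G B h₀ x) w)
    (h2 : b ∈ Set.range (ZZ G B h₀ x w)) (h3 : b ∈ Set.range (ZZ G B h₀ x' w))
    (h4 : ¬ ∃ d, De G w d ∧ (b = d ∨ G.Adj b d)) : x (ln G w) = x' (ln G w) := by
  obtain ⟨k, hk⟩ := Nat.exists_eq_succ_of_ne_zero hw
  have ex := (inv hB h0 h1).2.2 k hk
  rw [ZZ, hk, Zl] at h2 h3
  rw [← Zl_dep (x := x) k fun j hj => e j (by omega)] at h3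
  rw [hk]
  by_contra hne
  exact h4 ((pick_spec h₀ ex).2 _ _ hne b h2 h3)

end

/-- extension of a finite sequence of choices -/
def ex {N : ℕ} (z : Fin n) (y : Fin N → Fin n) (k : ℕ) : Fin n :=
  if h : k < N then y ⟨k, h⟩ else z

variable (G B h₀) in
open Classical in
noncomputable def cnt (N : ℕ) (z : Fin n) (u : WG G) : Finset (Fin N → Fin n) :=
  Finset.univ.filter fun y => InA G (ZZ G B h₀ (ex z y)) u

lemma mem_cnt {N : ℕ} {z : Fin n} {u : WG G} {y : Fin N → Fin n} :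
    y ∈ cnt G B h₀ N z u ↔ InA G (ZZ G B h₀ (ex z y)) u := by simp [cnt]

section
variable (hB : Br G B n) (h0 : Hex G B h₀)
include hB h0

lemma cnt_le (N : ℕ) (z : Fin n) (j : ℕ) : ∀ u : WG G, 2 * j + 1 ≤ ln G u → ln G u ≤ N →
    (cnt G B h₀ N z u).card * n ^ j ≤ n ^ N := by
  induction j with
  | zero =>
    intro u _ _
    simpa using Finset.card_le_univ (cnt G B h₀ N z u)
  | succ j ih =>
    intro u h1 h2
    obtain ⟨w, b, w1, w2, w3⟩ := recent hB h0 (u := u) (by omega)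
    refine le_trans ?_ (ih w (by omega) (by omega))
    rw [pow_succ', ← mul_assoc]
    refine Nat.mul_le_mul_right _ ?_
    have hl : ln G w < N := by omega
    have up : ∀ (y : Fin N → Fin n) (γ : Fin n), ∀ i < ln G w,
        ex z y i = ex z (Function.update y ⟨_, hl⟩ γ) i := fun y γ i hi => by
      unfold ex
      split_ifs
      · rw [Function.update_of_ne fun e => by simp only [Fin.mk.injEq] at e; omega]
      · rfl
    have := Finset.card_le_card_of_injOn (s := cnt G B h₀ N z u ×ˢ Finset.univ)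
      (t := cnt G B h₀ N z w) (fun p : (Fin N → Fin n) × Fin n => Function.update p.1 ⟨_, hl⟩ p.2)
      (fun p hp => mem_cnt.2 ((w3 _ (mem_cnt.1 (Finset.mem_product.1 hp).1)).1.dep (up _ _)))
      (fun p hp p' hp' e => by
        obtain ⟨a1, a2, a3⟩ := w3 _ (mem_cnt.1 (Finset.mem_product.1 hp).1)
        obtain ⟨-, b2, -⟩ := w3 _ (mem_cnt.1 (Finset.mem_product.1 hp').1)
        beta_reduce at e
        have c := uniq hB h0 (by omega) (fun i hi => by rw [up p.1 p.2 i hi, up p'.1 p'.2 i hi, e])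
          a1 a2 b2 a3
        simp only [ex, dif_pos hl] at c
        refine Prod.ext (funext fun i => ?_) (by simpa using congrFun e ⟨_, hl⟩)
        by_cases hi : i = ⟨_, hl⟩
        · rw [hi, c]
        · simpa [Function.update_of_ne hi] using congrFun e i)
    simpa using this

lemma exists_up {x : ℕ → Fin n} {v : WG G} (h : InA G (ZZ G B h₀ x) v) :
    ∃ a ∈ Set.range (ZZ G B h₀ x v), As G v a := by
  have H := (inv hB h0 h).1
  rcases as_or_de v (ZZ G B h₀ x v 0) with c | c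
  · exact ⟨_, ⟨0, rfl⟩, c⟩
  rcases as_or_de v (ZZ G B h₀ x v 2) with c' | c'
  · exact ⟨_, ⟨2, rfl⟩, c'⟩
  exact absurd ((H.2 _ _).1 (c.adj c' fun e => absurd (H.inj e) (by decide))) (by decide)

lemma exists_ray {x : ℕ → Fin n} {v : WG G} (h : InA G (ZZ G B h₀ x) v) :
    ∃ r, Ray G r ∧ (∀ k, InA G (ZZ G B h₀ x) (r k)) ∧ r (ln G v) = v := by
  have hf : ∀ v : WG G, ∃ w, InA G (ZZ G B h₀ x) v →
      InA G (ZZ G B h₀ x) w ∧ ln G w = ln G v + 1 ∧ Pre G v w := fun v => by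
    by_cases h : InA G (ZZ G B h₀ x) v
    · obtain ⟨a, a1, a2⟩ := exists_up hB h0 h
      exact ⟨_, fun _ => ⟨h.step a1 a2, a2, a2.pre⟩⟩
    · exact ⟨v, fun h' => absurd h' h⟩
  choose f hf using hf
  have it : ∀ v, InA G (ZZ G B h₀ x) v → ∀ k, InA G (ZZ G B h₀ x) (f^[k] v) ∧
      ln G (f^[k] v) = ln G v + k := fun v h k => by
    induction k with
    | zero => exact ⟨h, rfl⟩
    | succ k ih =>
      rw [Function.iterate_succ_apply']
      exact ⟨(hf _ ih.1).1, by rw [(hf _ ih.1).2.1, ih.2, add_assoc]⟩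
  induction h with
  | one =>
    refine ⟨fun k => f^[k] 1, fun k => ⟨by simpa [ln_one] using (it 1 InA.one k).2, ?_⟩,
      fun k => (it 1 InA.one k).1, by simp [ln_one]⟩
    simp only [Function.iterate_succ_apply']
    exact (hf _ (it 1 InA.one k).1).2.2
  | @step u a u1 u2 u3 ih =>
    obtain ⟨r, r1, r2, r3⟩ := ih
    have hv := u1.step u2 u3
    have lv : ln G (mu G u a) = ln G u + 1 := u3
    refine ⟨fun k => if k ≤ ln G u then r k else f^[k - (ln G u + 1)] (mu G u a),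
      fun k => ⟨?_, ?_⟩, fun k => ?_, by simp [lv]⟩
    · beta_reduce
      split_ifs
      · exact (r1 k).1
      · rw [(it _ hv _).2]; omega
    · beta_reduce
      split_ifs with c1 c2 c2
      · exact (r1 k).2
      · obtain rfl : k = ln G u := by omega
        rw [r3, Nat.sub_self]
        exact u3.pre
      · omega
      · rw [show k + 1 - (ln G u + 1) = k - (ln G u + 1) + 1 by omega,
          Function.iterate_succ_apply']
        exact (hf _ (it _ hv _).1).2.2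
    · beta_reduce
      split_ifs
      · exact r2 k
      · exact (it _ hv _).1

omit hB h0 in
variable (G) in
/-- two vertices of the apartment with a common upper neighbour -/
def Nb (Z : WG G → Fin 6 → V) (v v' : WG G) : Prop :=
  InA G Z v ∧ InA G Z v' ∧ ∃ a ∈ Set.range (Z v), ∃ b ∈ Set.range (Z v'),
    As G v a ∧ As G v' b ∧ mu G v a = mu G v' b

lemma chain_kids {x : ℕ → Fin n} {v : WG G} (h : InA G (ZZ G B h₀ x) v) {a b : V}
    (ha : a ∈ Set.range (ZZ G B h₀ x v)) (hb : b ∈ Set.range (ZZ G B h₀ x v)) (a1 : As G v a)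
    (b1 : As G v b) : ReflTransGen (Nb G (ZZ G B h₀ x)) (mu G v a) (mu G v b) := by
  refine ReflTransGen.lift (mu G v) ?_ _ _ ((inv hB h0 h).1.conn (De G v)
    (fun _ _ e e' => e.adj e') ha hb a1.not_de b1.not_de)
  rintro p q ⟨p1, q1, p2, q2, e⟩
  have p3 := (as_or_de v p).resolve_right p2
  have q3 := (as_or_de v q).resolve_right q2
  have p4 := ((inv hB h0 (h.step p1 p3)).2.1 p p3.de).2.2.2 q e.symm
  have q4 := ((inv hB h0 (h.step q1 q3)).2.1 q q3.de).2.2.2 p e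
  rw [mu_mu] at p4 q4
  exact ⟨h.step p1 p3, h.step q1 q3, q, p4.2 q1, p, q4.2 p1, p3.as q3 e, q3.as p3 e.symm,
    mu_comm v e⟩

lemma chain (x : ℕ → Fin n) (k : ℕ) : ∀ v v', InA G (ZZ G B h₀ x) v → InA G (ZZ G B h₀ x) v' →
    ln G v = k → ln G v' = k → ReflTransGen (Nb G (ZZ G B h₀ x)) v v' := by
  induction k with
  | zero => intro v v' _ _ e e'; rw [ln_eq_zero.1 e, ln_eq_zero.1 e']
  | succ k ih =>
    intro v v' h h' e e'
    obtain ⟨u, a, u1, u2, u3, rfl⟩ := h.cases.resolve_left fun c => by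
      rw [c, ln_one] at e; omega
    obtain ⟨u', b, w1, w2, w3, rfl⟩ := h'.cases.resolve_left fun c => by
      rw [c, ln_one] at e'; omega
    have c := ih u u' u1 w1 (by unfold As at u3; omega) (by unfold As at w3; omega)
    clear h' e'
    induction c generalizing b with
    | refl => exact chain_kids hB h0 u1 u2 w2 u3 w3
    | tail _ c2 ih2 =>
      obtain ⟨c1, -, p, p1, q, q1, p2, q2, e2⟩ := c2
      exact (e2 ▸ ih2 p c1 p1 p2).trans (chain_kids hB h0 w1 q1 w2 q2 w3)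

end

lemma level_card (Z : WG G → Fin 6 → V) (k : ℕ) :
    ∃ F : Finset (WG G), F.card ≤ 6 ^ k ∧ ∀ v, InA G Z v → ln G v = k → v ∈ F := by
  classical
  induction k with
  | zero => exact ⟨{1}, by simp, fun v _ e => by simp [ln_eq_zero.1 e]⟩
  | succ k ih =>
    obtain ⟨F, F1, F2⟩ := ih
    refine ⟨(F ×ˢ Finset.univ).image fun p : WG G × Fin 6 => mu G p.1 (Z p.1 p.2),
      Finset.card_image_le.trans ?_, fun v h e => ?_⟩
    · rw [Finset.card_product, pow_succ]
      simpa using F1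
    · obtain ⟨u, a, u1, ⟨i, rfl⟩, u3, rfl⟩ := h.cases.resolve_left fun c => by
        rw [c, ln_one] at e; omega
      exact Finset.mem_image.2 ⟨(u, i), Finset.mem_product.2
        ⟨F2 u u1 (by unfold As at u3; omega), Finset.mem_univ _⟩, rfl⟩

lemma level_sum (Z : WG G → Fin 6 → V) (T : Finset (WG G)) (hT : ∀ v ∈ T, InA G Z v) :
    ∑ v ∈ T, (1 / 12 : ℝ) ^ ln G v ≤ 2 := by
  classical
  rw [← Finset.sum_fiberwise_of_maps_to (t := Finset.range (T.sup (ln G) + 1)) (g := ln G)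
    fun g hg => Finset.mem_range.2 (Nat.lt_succ_of_le (Finset.le_sup hg))]
  refine le_trans (Finset.sum_le_sum fun k _ => ?_) (sum_geometric_two_le (T.sup (ln G) + 1))
  obtain ⟨F, F1, F2⟩ := level_card Z k
  have h1 : ((T.filter fun v => ln G v = k).card : ℝ) ≤ 6 ^ k := by
    exact_mod_cast (Finset.card_le_card fun v hv =>
      F2 v (hT v (Finset.mem_filter.1 hv).1) (Finset.mem_filter.1 hv).2).trans F1
  rw [Finset.sum_congr rfl fun v hv => by rw [(Finset.mem_filter.1 hv).2], Finset.sum_const,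
    nsmul_eq_mul]
  calc _ ≤ (6 : ℝ) ^ k * (1 / 12) ^ k := by gcongr
    _ = _ := by rw [← mul_pow]; norm_num

end Pool.Agent.Lib.CD53
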