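import Pool.Agent.Lib.CD53.Mod1

/-! The modulus argument: branching hexagon apartments force large conformal dimension. -/

namespace Pool.Agent.Lib.CD53

open Filter Topology MeasureTheory Pool.Agent.Lib.MP_845f45_al
open scoped NNReal ENNReal

variable {V : Type} [DecidableEq V] {G : SimpleGraph V} [DecidableRel G.Adj] {ω : ℕ}
variable {B : Set V} {n : ℕ} {h₀ : Fin 6 → V}

lemma chain_sum (hω : ClB G ω) (hs : NoSq G) (hB : Br G B n) (hH : Hex G B h₀) {X : Type}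
    [PseudoMetricSpace X] (ξ : RT G → X) (x : ℕ → Fin n) (T : Finset (WG G)) (d : WG G → ℝ) (N : ℕ)
    (d0 : ∀ u, 0 ≤ d u) (hN : ∀ u ∈ T, ln G u ≤ N) (hT : ∀ u ∈ T, InA G (ZZ G B h₀ x) u)
    (hit : ∀ r : RT G, (∀ k, InA G (ZZ G B h₀ x) (r.1 k)) → ∃ k, r.1 k ∈ T)
    (hd : ∀ u ∈ T, ∀ ρ ρ' : RT G, dW G u (ρ.1 (ln G u)) ≤ 2 * ω → dW G u (ρ'.1 (ln G u)) ≤ 2 * ω →
      dist (ξ ρ) (ξ ρ') ≤ d u)
    (r r' : RT G) (hr : ∀ k, InA G (ZZ G B h₀ x) (r.1 k))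
    (hr' : ∀ k, InA G (ZZ G B h₀ x) (r'.1 k)) : dist (ξ r) (ξ r') ≤ 2 * ∑ u ∈ T, d u := by
  have ch : ∀ u, ∃ ρ : RT G, u ∈ T → ρ.1 (ln G u) = u := fun u => by
    by_cases h : u ∈ T
    · obtain ⟨ρ, a, -, b⟩ := exists_ray hB hH (hT u h)
      exact ⟨⟨ρ, a⟩, fun _ => b⟩
    · exact ⟨r, fun e => absurd e h⟩
  choose σ hσ using ch
  let f : RT G → ℝ := fun ρ => dist (ξ r) (ξ ρ)
  let S : Set ℝ := ⋃ u ∈ T, Set.Icc (f (σ u) - d u) (f (σ u) + d u)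
  have step : ∀ (ρ ρ' : RT G) w, (∀ k, InA G (ZZ G B h₀ x) (ρ.1 k)) → Pre G (ρ.1 N) w →
      Pre G (ρ'.1 N) w → Set.Ioc 0 (f ρ) ⊆ S → Set.Ioc 0 (f ρ') ⊆ S := by
    intro ρ ρ' w a1 a2 a3 a4 t ht
    by_cases c : t ≤ f ρ
    · exact a4 ⟨ht.1, c⟩
    obtain ⟨k, hk⟩ := hit ρ a1
    have l := (ρ.2 k).1
    have kN : k ≤ N := l ▸ hN _ hk
    have b0 : dW G (ρ.1 k) ((σ (ρ.1 k)).1 (ln G (ρ.1 k))) ≤ 2 * ω := by
      rw [hσ _ hk, dW_self]; omega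
    have b1 := hd _ hk _ ρ b0 (by rw [l, dW_self]; omega)
    have b2 := hd _ hk _ ρ' b0 (by
      rw [l]
      exact dist_le_of_pre hω hs ((ρ.2.pre kN).tr a2) ((ρ'.2.pre kN).tr a3)
        (l.trans (ρ'.2 k).1.symm))
    have b3 := dist_triangle_right (ξ r) (ξ (σ (ρ.1 k))) (ξ ρ)
    have b4 := dist_triangle (ξ r) (ξ (σ (ρ.1 k))) (ξ ρ')
    refine Set.mem_iUnion₂.2 ⟨_, hk, ?_, ?_⟩
    · simp only [f] at c ⊢; linarith
    · have := ht.2; simp only [f] at this ⊢; linarith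
  have key : ∀ v, Relation.ReflTransGen (Nb G (ZZ G B h₀ x)) (r.1 N) v → ln G v = N ∧
      ∀ ρ : RT G, ρ.1 N = v → Set.Ioc 0 (f ρ) ⊆ S := by
    intro v h
    induction h with
    | refl => exact ⟨(r.2 N).1, fun ρ e => step r ρ _ hr (Pre.refl _) (e ▸ Pre.refl _) (by simp [f])⟩
    | tail _ c ih =>
      obtain ⟨c1, -, a, -, b, -, a1, b1, e⟩ := c
      obtain ⟨ρ, p1, p2, p3⟩ := exists_ray hB hH c1
      rw [ih.1] at p3
      refine ⟨?_, fun ρ' e' => step ⟨ρ, p1⟩ ρ' _ p2 ((congrArg (Pre G · _) p3).mpr a1.pre)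
        (by rw [e, e']; exact b1.pre) (ih.2 ⟨ρ, p1⟩ p3)⟩
      unfold As at a1 b1
      rw [e] at a1
      omega
  have h1 := (measure_mono (μ := volume) ((key _ (chain hB hH x N _ _ (hr N) (hr' N) (r.2 N).1
    (r'.2 N).1)).2 r' rfl)).trans (measure_biUnion_finset_le _ _)
  simp only [Real.volume_Ioc, Real.volume_Icc] at h1
  rw [← ENNReal.ofReal_sum_of_nonneg fun u _ => by linarith [d0 u],
    ENNReal.ofReal_le_ofReal_iff (Finset.sum_nonneg fun u _ => by linarith [d0 u])] at h1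
  rw [Finset.mul_sum]
  exact (sub_zero _).ge.trans (h1.trans (Finset.sum_le_sum fun u _ => by linarith))

lemma thr {d θ : ℝ} (h : 0 ≤ d) (h' : 0 < θ) (s : ℕ) : d ≤ θ + d ^ (s + 1) / θ ^ s := by
  rcases le_total d θ with c | c
  · exact c.trans (le_add_of_nonneg_right (by positivity))
  · refine le_trans ?_ (le_add_of_nonneg_left h'.le)
    rw [le_div_iff₀ (by positivity), pow_succ']
    gcongr

lemma cnt_lam (hB : Br G B n) (hH : Hex G B h₀) {s : ℕ} (hn : 144 ^ s ≤ n) (N : ℕ) (z : Fin n)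
    {u : WG G} (hu : ln G u ≤ N) :
    ((cnt G B h₀ N z u).card : ℝ) ≤ (144 * (1 / 12) ^ ln G u) ^ s * n ^ N := by
  have h1 : (cnt G B h₀ N z u).card * 12 ^ (ln G u * s) ≤ 144 ^ s * n ^ N := by
    have a : (cnt G B h₀ N z u).card * n ^ ((ln G u - 1) / 2) ≤ n ^ N := by
      rcases Nat.eq_zero_or_pos (ln G u) with e | e
      · simpa [e] using Finset.card_le_univ (cnt G B h₀ N z u)
      · exact cnt_le hB hH N z _ u (by omega) hu
    have b : 12 ^ (ln G u * s) ≤ 144 ^ s * n ^ ((ln G u - 1) / 2) :=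
      calc _ ≤ 12 ^ (2 * (1 + (ln G u - 1) / 2) * s) :=
            Nat.pow_le_pow_right (by norm_num) (Nat.mul_le_mul_right _ (by omega))
        _ = 144 ^ s * (144 ^ s) ^ ((ln G u - 1) / 2) := by
            rw [mul_assoc, pow_mul, mul_comm, pow_mul, pow_add, pow_one]; rfl
        _ ≤ _ := by gcongr
    calc _ ≤ (cnt G B h₀ N z u).card * (144 ^ s * n ^ ((ln G u - 1) / 2)) := by gcongr
      _ = 144 ^ s * ((cnt G B h₀ N z u).card * n ^ ((ln G u - 1) / 2)) := by ring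
      _ ≤ _ := by gcongr
  rw [mul_pow, ← pow_mul, one_div_pow, mul_one_div, div_mul_eq_mul_div, le_div_iff₀ (by positivity)]
  exact_mod_cast h1

variable [Fintype V]

lemma konig (C : ℕ → Finset (WG G)) (h : ∀ r : RT G, ∃ i k, r.1 k ∈ C i) :
    ∃ N, ∀ r : RT G, ∃ i < N, ∃ k, r.1 k ∈ C i := by
  by_contra hc
  push Not at hc
  choose r hr using hc
  have : ∀ k, ∃ a, ∀ᶠ N in (hyperfilter ℕ : Filter ℕ), (r N).1 k = a := fun k => by
    obtain ⟨a, -, ha⟩ := Ultrafilter.eq_pure_of_finite_mem (Sph G k).finite_toSet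
      (f := Ultrafilter.map (fun N => (r N).1 k) (hyperfilter ℕ))
      (Ultrafilter.mem_map.2 (univ_mem' fun N => by
        have := mem_Sph ((r N).1 k)
        rwa [show (csG G).length ((r N).1 k) = k from ((r N).2 k).1] at this))
    have : ({a} : Set (WG G)) ∈ Ultrafilter.map (fun N => (r N).1 k) (hyperfilter ℕ) := by
      rw [ha]; simp
    exact ⟨a, this⟩
  choose ρ hρ using this
  obtain ⟨i, k, e⟩ := h ⟨ρ, fun k => by
    obtain ⟨N, a, b⟩ := ((hρ k).and (hρ (k + 1))).exists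
    rw [← a, ← b]; exact (r N).2 k⟩
  obtain ⟨N, a, b⟩ := ((hρ k).and
    ((eventually_gt_atTop i).filter_mono Nat.hyperfilter_le_atTop)).exists
  exact hr N i b k (a ▸ e)

lemma cell {X : Type} [PseudoMetricSpace X] (ξ : RT G → X) {Λ : ℝ} (hΛ : 1 ≤ Λ)
    (q1 : ∀ (r r' ρ : RT G) k, 4 * ω < dW G (r.1 (k + 1)) (r'.1 (k + 1)) →
      dW G (r.1 k) (ρ.1 k) ≤ 6 * ω → dist (ξ r) (ξ ρ) ≤ Λ * dist (ξ r) (ξ r'))
    (q2 : ∀ (r : RT G) δ, 0 < δ → ∃ k, ∀ ρ : RT G, dW G (r.1 k) (ρ.1 k) ≤ 6 * ω →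
      dist (ξ r) (ξ ρ) ≤ δ) (U : Set X) {δ : ℝ} (hδ : 0 < δ)
    (hU : ∀ x ∈ U, ∀ y ∈ U, dist x y ≤ δ) : ∃ C : Finset (WG G), C.card ≤ (Ball G (4 * ω)).card ∧
      (∀ r : RT G, ξ r ∈ U → ∃ k, r.1 k ∈ C) ∧ ∀ u ∈ C, ∀ ρ ρ' : RT G,
        dW G u (ρ.1 (ln G u)) ≤ 2 * ω → dW G u (ρ'.1 (ln G u)) ≤ 2 * ω →
        dist (ξ ρ) (ξ ρ') ≤ 2 * Λ * δ := by
  classical
  by_cases h : ∃ r, ξ r ∈ U
  swap
  · exact ⟨∅, by simp, fun r hr => absurd ⟨r, hr⟩ h, by simp⟩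
  obtain ⟨r, k, a1, a2⟩ : ∃ (r : RT G) (k : ℕ), (∀ r', ξ r' ∈ U → dW G (r.1 k) (r'.1 k) ≤ 4 * ω) ∧
      ∀ ρ : RT G, dW G (r.1 k) (ρ.1 k) ≤ 6 * ω → dist (ξ r) (ξ ρ) ≤ Λ * δ := by
    by_cases c : ∃ k, ∃ r r' : RT G, ξ r ∈ U ∧ ξ r' ∈ U ∧ 4 * ω < dW G (r.1 k) (r'.1 k)
    · obtain ⟨r, r', b1, b2, b3⟩ := Nat.find_spec c
      obtain ⟨k, hk⟩ := Nat.exists_eq_succ_of_ne_zero (n := Nat.find c) fun e => by
        rw [e, ln_eq_zero.1 (r.2 0).1, ln_eq_zero.1 (r'.2 0).1, dW_self] at b3; omega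
      refine ⟨r, k, fun ρ e => not_lt.1 fun e' => Nat.find_min c (m := k) (by omega)
        ⟨r, ρ, b1, e, e'⟩, fun ρ e => (q1 r r' ρ k (by rwa [hk] at b3) e).trans ?_⟩
      gcongr
      exact hU _ b1 _ b2
    · obtain ⟨r, hr⟩ := h
      obtain ⟨k, hk⟩ := q2 r δ hδ
      exact ⟨r, k, fun ρ e => not_lt.1 fun e' => c ⟨k, r, ρ, hr, e, e'⟩,
        fun ρ e => (hk ρ e).trans (le_mul_of_one_le_left hδ.le hΛ)⟩
  refine ⟨((Ball G (4 * ω)).image (r.1 k * ·)).filter fun u => ln G u = k ∧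
    dW G (r.1 k) u ≤ 4 * ω, (Finset.card_filter_le _ _).trans Finset.card_image_le,
    fun r' e => ⟨k, Finset.mem_filter.2 ⟨Finset.mem_image.2 ⟨_, mem_Ball (a1 r' e), by simp⟩,
      (r'.2 k).1, a1 r' e⟩⟩, fun u hu ρ ρ' e e' => ?_⟩
  obtain ⟨-, rfl, b⟩ := Finset.mem_filter.1 hu
  have c1 := a2 ρ ((dW_tri _ u _).trans (by omega))
  have c2 := a2 ρ' ((dW_tri _ u _).trans (by omega))
  linarith [dist_triangle_left (ξ ρ) (ξ ρ') (ξ r)]

theorem lower (h0 : 0 < ω) (hω : ClB G ω) (hs : NoSq G) (hB : Br G B n) (hH : Hex G B h₀) {s : ℕ}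
    (hn : 144 ^ s ≤ n) (m : MetricSpace (Bdry (gp G))) (hm : IsVisual (gp G) m) :
    ((s + 1 : ℕ) : ℝ≥0∞) ≤ confDim m := by
  classical
  refine le_iInf₂ fun m' hq => not_lt.1 fun hlt => ?_
  have n0 : 0 < n := lt_of_lt_of_le (by positivity) hn
  let z : Fin n := ⟨0, n0⟩
  have ends : ∀ x : ℕ → Fin n, ∃ r r' : RT G, (∀ k, InA G (ZZ G B h₀ x) (r.1 k)) ∧
      (∀ k, InA G (ZZ G B h₀ x) (r'.1 k)) ∧
      ∀ i j, 1 ≤ i → 1 ≤ j → gp G (r.1 i) (r'.1 j) ≤ ω := fun x => by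
    have key : ∀ i, ∃ r : RT G, (∀ k, InA G (ZZ G B h₀ x) (r.1 k)) ∧
        ∀ j, 1 ≤ j → Pre G (mu G 1 (h₀ i)) (r.1 j) := fun i => by
      have a : As G 1 (h₀ i) := (as_or_de _ _).resolve_right fun c => by
        unfold De at c; rw [ln_one] at c; omega
      obtain ⟨r, b1, b2, b3⟩ := exists_ray hB hH
        (InA.one.step (Z := ZZ G B h₀ x) ⟨i, by rw [ZZ, ln_one, Zl]⟩ a)
      rw [a, ln_one] at b3
      exact ⟨⟨r, b1⟩, b2, fun j hj => b3 ▸ b1.pre hj⟩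
    obtain ⟨r, a1, a2⟩ := key 0
    obtain ⟨r', b1, b2⟩ := key 2
    exact ⟨r, r', a1, b1, fun i j hi hj => gp_sep hω hs (fun e => absurd (hH.inj e) (by decide))
      (fun e => absurd ((hH.2 _ _).1 e) (by decide)) (a2 i hi) (b2 j hj)⟩
  obtain ⟨r₀, r₁, -, -, h01⟩ := ends fun _ => z
  obtain ⟨Λ, c, hΛ, hc, q1, q2, q3⟩ := qs_facts h0 hω hs hm hq r₀ r₁ h01
  let _ := m'
  set θ := c / 2000 with hθ
  set M : ℝ := (Ball G (4 * ω)).card * (2 * Λ) ^ (s + 1) + 1 with hM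
  have M0 : 0 < M := by positivity
  have θ0 : 0 < θ := by positivity
  obtain ⟨t, δ, t1, t2, t3, t4⟩ := cover_of_dimH hlt (ε := θ ^ (s + 1) / M) (by positivity)
  choose C C1 C2 C3 using fun i => cell xi hΛ q1 q2 (t i) (t2 i) (t3 i)
  obtain ⟨I, hI⟩ := konig C fun r => (t1 (xi r)).imp fun i hi => C2 i r hi
  set T := (Finset.range I).biUnion C
  set N := T.sup (ln G)
  let E : WG G → Set ℝ := fun u => {e | ∃ ρ ρ' : RT G, dW G u (ρ.1 (ln G u)) ≤ 2 * ω ∧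
    dW G u (ρ'.1 (ln G u)) ≤ 2 * ω ∧ e = dist (xi ρ) (xi ρ')}
  have E1 : ∀ i, ∀ u ∈ C i, ∀ e ∈ E u, e ≤ 2 * Λ * δ i := by
    rintro i u hu _ ⟨ρ, ρ', a, b, rfl⟩
    exact C3 i u hu ρ ρ' a b
  let d : WG G → ℝ := fun u => sSup (E u)
  have d0 : ∀ u, 0 ≤ d u := fun u => Real.sSup_nonneg (by
    rintro _ ⟨ρ, ρ', -, -, rfl⟩; exact dist_nonneg)
  have d1 : ∑ u ∈ T, d u ^ (s + 1) ≤ θ ^ (s + 1) := by
    refine (sum_biUnion_le' _ _ _ fun u => pow_nonneg (d0 u) _).trans ?_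
    calc _ ≤ ∑ i ∈ Finset.range I, M * δ i ^ (s + 1) := by
          refine Finset.sum_le_sum fun i _ => ?_
          have := t2 i
          refine (Finset.sum_le_card_nsmul _ _ ((2 * Λ * δ i) ^ (s + 1)) fun u hu =>
            pow_le_pow_left₀ (d0 u) (Real.sSup_le (E1 i u hu) (by positivity)) _).trans ?_
          rw [nsmul_eq_mul, mul_pow, ← mul_assoc]
          gcongr
          refine le_trans ?_ (le_add_of_nonneg_right zero_le_one)
          exact mul_le_mul_of_nonneg_right (Nat.cast_le.2 (C1 i)) (by positivity)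
      _ ≤ _ := by rw [← Finset.mul_sum, ← le_div_iff₀' M0]; exact t4 I
  let lam : WG G → ℝ := fun u => 144 * (1 / 12) ^ ln G u
  have l0 : ∀ u, 0 < lam u := fun u => by positivity
  have each : ∀ y : Fin N → Fin n, c ≤ 576 * θ + 2 * ∑ u ∈ T,
      if y ∈ cnt G B h₀ N z u then d u ^ (s + 1) / (θ * lam u) ^ s else 0 := fun y => by
    obtain ⟨r, r', a1, a2, a3⟩ := ends (ex z y)
    have b1 := chain_sum hω hs hB hH xi (ex z y) (T.filter fun u => y ∈ cnt G B h₀ N z u) d N d0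
      (fun u hu => Finset.le_sup (Finset.mem_filter.1 hu).1)
      (fun u hu => mem_cnt.1 (Finset.mem_filter.1 hu).2)
      (fun ρ hρ => by
        obtain ⟨i, i1, k, i2⟩ := hI ρ
        exact ⟨k, Finset.mem_filter.2 ⟨Finset.mem_biUnion.2 ⟨i, Finset.mem_range.2 i1, i2⟩,
          mem_cnt.2 (hρ k)⟩⟩)
      (fun u hu ρ ρ' e e' => by
        obtain ⟨i, -, i2⟩ := Finset.mem_biUnion.1 (Finset.mem_filter.1 hu).1
        exact le_csSup ⟨_, E1 i u i2⟩ ⟨ρ, ρ', e, e', rfl⟩) r r' a1 a2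
    have b2 := level_sum _ (T.filter fun u => y ∈ cnt G B h₀ N z u)
      fun u hu => mem_cnt.1 (Finset.mem_filter.1 hu).2
    have b3 := Finset.sum_le_sum (s := T.filter fun u => y ∈ cnt G B h₀ N z u)
      fun u _ => thr (d0 u) (mul_pos θ0 (l0 u)) s
    rw [Finset.sum_add_distrib, ← Finset.mul_sum, ← Finset.mul_sum] at b3
    rw [← Finset.sum_filter]
    nlinarith [q3 r r' a3]
  have tot := Finset.sum_le_sum fun y (_ : y ∈ Finset.univ) => each y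
  rw [Finset.sum_add_distrib, ← Finset.mul_sum _ _ 2, Finset.sum_comm] at tot
  simp only [Finset.sum_const, Finset.card_univ, Fintype.card_pi, Fintype.card_fin,
    Finset.prod_const, nsmul_eq_mul, Finset.sum_ite_mem, Finset.univ_inter, Nat.cast_pow] at tot
  have e1 : ∑ u ∈ T, (cnt G B h₀ N z u).card * (d u ^ (s + 1) / (θ * lam u) ^ s) ≤ n ^ N * θ :=
    calc _ ≤ ∑ u ∈ T, n ^ N / θ ^ s * d u ^ (s + 1) := by
          refine Finset.sum_le_sum fun u hu => ?_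
          have := l0 u
          have := d0 u
          refine (mul_le_mul_of_nonneg_right (cnt_lam hB hH hn N z (Finset.le_sup hu))
            (by positivity)).trans (le_of_eq ?_)
          change lam u ^ s * _ * _ = _
          rw [mul_pow θ]
          field_simp
      _ ≤ n ^ N / θ ^ s * θ ^ (s + 1) := by rw [← Finset.mul_sum]; gcongr
      _ = _ := by field_simp; ring
  have : (0 : ℝ) < n ^ N * θ := by positivity
  rw [show c = 2000 * θ by rw [hθ]; ring] at tot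
  nlinarith

end Pool.Agent.Lib.CD53
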