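import Pool.Agent.Lib.MP_845f45_al.Lev

/-! The upper bound for the conformal dimension with explicit constants. -/

namespace Pool.Agent.Lib.CD53

open Real Relation Pool.Agent.Lib.MP_845f45_al Pool.Agent.Lib.MP_845f45_al.H2

lemma num_c {E Λ : ℝ} {j : ℕ} (E0 : 0 ≤ E) (hE : E ≤ 2 ^ j) (hΛ : Λ = 40 * (2 * |E| + 1)) :
    Λ * (4 + 8 * Λ) ≤ 2 ^ (2 * j + 18) := by
  rw [abs_of_nonneg E0] at hΛ
  have h1 : (1 : ℝ) ≤ 2 ^ j := one_le_pow₀ one_le_two
  have h2 : Λ ≤ 120 * 2 ^ j := by linarith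
  have h3 : 1 ≤ Λ := by linarith
  have h4 : Λ * Λ ≤ 120 * 2 ^ j * (120 * 2 ^ j) := mul_le_mul h2 h2 (by linarith) (by positivity)
  rw [pow_add, two_mul, pow_add]
  nlinarith

lemma num_mu (n : ℕ) : (4 * 2 ^ n * 2 ^ n + 2 : ℝ) ≤ 8 * (2 ^ n * 2 ^ n) := by
  have h1 : (1 : ℝ) ≤ 2 ^ n := one_le_pow₀ one_le_two
  nlinarith

lemma num_n1 {E : ℝ} {j : ℕ} (hE : E ≤ 2 ^ j) (n : ℕ) :
    2 * E * (50 * (4 * 2 ^ n * 2 ^ n + 2)) ^ 2 ≤ ((2 ^ (j + 4 * n + 21) : ℕ) : ℝ) := by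
  have h := num_mu n
  calc _ ≤ 2 * (2 : ℝ) ^ j * (50 * (8 * (2 ^ n * 2 ^ n))) ^ 2 := by gcongr
    _ = 320000 * 2 ^ (j + 4 * n) := by ring
    _ ≤ 2 ^ 21 * 2 ^ (j + 4 * n) := by gcongr; norm_num
    _ = _ := by push_cast; ring

lemma num_n2 (j n : ℕ) : 2 + (2 * ⌈82 * (4 * 2 ^ n * 2 ^ n + 2 : ℝ)⌉₊ + 1) *
    (2 * ⌈82 * (4 * 2 ^ n * 2 ^ n + 2 : ℝ)⌉₊ + 1) ≤ 2 ^ (j + 4 * n + 21) := by
  have h1 : ⌈82 * (4 * 2 ^ n * 2 ^ n + 2 : ℝ)⌉₊ ≤ 656 * (2 ^ n * 2 ^ n) := by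
    rw [Nat.ceil_le]; push_cast; linarith [num_mu n]
  obtain ⟨y, hy⟩ : ∃ y : ℕ, y = 2 ^ n * 2 ^ n := ⟨_, rfl⟩
  have y1 : 1 ≤ y := hy ▸ Nat.succ_le_of_lt (by positivity)
  rw [← hy] at h1
  have h2 : 2 ^ 21 * (y * y) ≤ 2 ^ (j + 4 * n + 21) := by
    rw [hy, show 2 ^ 21 * (2 ^ n * 2 ^ n * (2 ^ n * 2 ^ n)) = 2 ^ (4 * n + 21) by ring]
    exact Nat.pow_le_pow_right two_pos (by omega)
  generalize ⌈82 * (4 * 2 ^ n * 2 ^ n + 2 : ℝ)⌉₊ = z at h1
  have h3 : (2 * z + 1) * (2 * z + 1) ≤ 1313 * y * (1313 * y) :=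
    Nat.mul_le_mul (by omega) (by omega)
  nlinarith

lemma num_n3 (j n : ℕ) : 2 ^ (j + 4 * n + 21) + 2 ^ (j + 4 * n + 21) * 2 ^ (j + 4 * n + 21) * 3 ≤
    2 ^ (2 * j + 8 * n + 44) := by
  rw [show 2 ^ (2 * j + 8 * n + 44) = 2 ^ (j + 4 * n + 21) * 2 ^ (j + 4 * n + 21) * 4 by ring]
  have : 1 ≤ 2 ^ (j + 4 * n + 21) := Nat.one_le_two_pow
  nlinarith

lemma pk_count' {E μ : ℝ} (hμ : 0 < μ) {N : ℕ} (n1 : 2 * E * (50 * μ) ^ 2 ≤ N)
    (n2 : 2 + (2 * ⌈82 * μ⌉₊ + 1) * (2 * ⌈82 * μ⌉₊ + 1) ≤ N) {V : Type} [Fintype V]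
    {G : SimpleGraph V} {r : V → ℝ} (h : PK G r E) (a : V) (s : ℝ) (S : Finset V) (s0 : 0 < s)
    (hS : ∀ g ∈ S, s ≤ r g ∧ ∃ x, x ≤ μ * s ∧ Wk G r a g x) : S.card ≤ N := by
  set L := ⌈82 * μ⌉₊
  classical
  by_cases ht : 1 ≤ 50 * μ * s
  · have e1 : S.card • (s ^ 2 / 2) ≤ ∑ v ∈ S, (cosh (r v) - 1) :=
      Finset.card_nsmul_le_sum _ _ _ fun g hg =>
        le_trans (by gcongr; exact (hS g hg).1) (sq_le_cosh (h.1 g).le)
    have e2 := (Finset.sum_le_sum_of_subset_of_nonneg (Finset.subset_univ S)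
      fun v _ _ => sub_nonneg.2 (one_le_cosh (r v))).trans h.2.1
    rw [nsmul_eq_mul] at e1
    have e3 : (S.card : ℝ) ≤ 2 * E * (50 * μ) ^ 2 := by
      have : 1 ≤ (50 * μ * s) ^ 2 := one_le_pow₀ ht
      calc (S.card : ℝ) ≤ S.card * (50 * μ * s) ^ 2 := le_mul_of_one_le_right (by positivity) this
        _ = 2 * (S.card * (s ^ 2 / 2)) * (50 * μ) ^ 2 := by ring
        _ ≤ _ := by gcongr; linarith
    exact_mod_cast e3.trans n1
  refine le_trans ?_ n2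
  rw [← Finset.card_filter_add_card_filter_not (s := S) fun g => 40 * (μ * s) ≤ r g]
  refine add_le_add ?_ ?_
  · by_contra hc
    obtain ⟨g1, g2, g3, m1, m2, m3, n1, n2, n3⟩ := Finset.two_lt_card_iff.1 (not_le.1 hc)
    rw [Finset.mem_filter] at m1 m2 m3
    obtain ⟨-, x1, l1, w1⟩ := hS _ m1.1
    obtain ⟨-, x2, l2, w2⟩ := hS _ m2.1
    obtain ⟨-, x3, l3, w3⟩ := hS _ m3.1
    exact h.three (by linarith) le_rfl (by positivity) w1 w2 w3 l1 l2 l3 m1.2 m2.2 m3.2 n1 n2 n3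
  obtain ⟨Lf, h1, h2⟩ := h.2.2 a
  have k : ∀ g, ∃ p : H2, g ∈ S.filter (fun g => ¬ 40 * (μ * s) ≤ r g) →
      Lf g p ∧ |p.x| ≤ 82 * μ * s ∧ |p.y| ≤ 82 * μ * s := by
    intro g
    by_cases hg : g ∈ S.filter fun g => ¬ 40 * (μ * s) ≤ r g
    · obtain ⟨g1, g2⟩ := Finset.mem_filter.1 hg
      obtain ⟨-, x, x1, x2⟩ := hS g g1
      obtain ⟨p, p1, p2⟩ := h1 g x x2
      have x0 := x2.nonneg h.1
      have r0 := h.1 g
      have e1 := sinh_le_two (x := x + r g) (by linarith) (by linarith)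
      have e2 := sinh_nonneg_iff.2 (show 0 ≤ x + r g by linarith)
      have e3 : p.x ^ 2 + p.y ^ 2 ≤ (82 * μ * s) ^ 2 := by
        have := pow_le_pow_left₀ p.p.le p2 2
        rw [cosh_sq, p.h] at this
        have : sinh (x + r g) ^ 2 ≤ (82 * μ * s) ^ 2 := by gcongr; linarith
        linarith
      exact ⟨p, fun _ => ⟨p1, abs_le_of_sq_le_sq (by nlinarith) (by positivity),
        abs_le_of_sq_le_sq (by nlinarith) (by positivity)⟩⟩
    · exact ⟨o, fun h => absurd h hg⟩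
  choose p hp using k
  have fl : ∀ z : ℝ, |z| ≤ 82 * μ * s → ⌊z / s⌋ ∈ Finset.Icc (-(L : ℤ)) L := fun z hz => by
    have a1 : 82 * μ ≤ L := Nat.le_ceil _
    obtain ⟨a2, a3⟩ := abs_le.1 hz
    rw [Finset.mem_Icc, Int.le_floor, Int.floor_le_iff]
    push_cast
    constructor
    · rw [le_div_iff₀ s0]; nlinarith
    · rw [div_lt_iff₀ s0]; nlinarith
  have cl : ∀ z z' : ℝ, ⌊z / s⌋ = ⌊z' / s⌋ → (z - z') ^ 2 ≤ s ^ 2 := fun z z' e => by
    have := Int.abs_sub_lt_one_of_floor_eq_floor e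
    rw [← sub_div, abs_div, abs_of_pos s0, div_lt_one s0] at this
    exact sq_le_sq' (abs_lt.1 this).1.le (abs_lt.1 this).2.le
  refine (Finset.card_le_card_of_injOn (t := Finset.Icc (-(L : ℤ)) L ×ˢ Finset.Icc (-(L : ℤ)) L)
    (fun g => (⌊(p g).x / s⌋, ⌊(p g).y / s⌋))
    (fun g hg => Finset.mem_product.2 ⟨fl _ (hp g hg).2.1, fl _ (hp g hg).2.2⟩)
    fun g hg g' hg' e => ?_).trans ?_
  · by_contra hne
    have a1 := h2 _ _ _ _ (hp g hg).1 (hp g' hg').1 hne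
    have a2 := sq_ge (p g) (p g')
    have a3 := cl _ _ (Prod.ext_iff.1 e).1
    have a4 := cl _ _ (Prod.ext_iff.1 e).2
    have a5 := (hS g (Finset.mem_filter.1 hg).1).1
    have a6 := (hS g' (Finset.mem_filter.1 hg').1).1
    have a7 := sq_le_cosh (show 0 ≤ r g + r g' by linarith)
    nlinarith
  · rw [Finset.card_product, Int.card_Icc, show (L : ℤ) + 1 - -L = (2 * L + 1 : ℕ) by push_cast; ring,
      Int.toNat_natCast]

lemma ext_count' {E μ : ℝ} (hμ : 0 < μ) {N : ℕ} (n1 : 2 * E * (50 * (μ + 2)) ^ 2 ≤ N)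
    (n2 : 2 + (2 * ⌈82 * (μ + 2)⌉₊ + 1) * (2 * ⌈82 * (μ + 2)⌉₊ + 1) ≤ N) {ω : ℕ} {V : Type}
    [Fintype V] {G : SimpleGraph V} {r r' : V → ℝ} (h : PK G r E) (hs : NoSq G) (hω : ClB G ω)
    (h3 : ∀ v, r' v = r v ∨ ∃ b b', Opp G v b b' ∧ r' v ≤ r b ∧ r' v ≤ r b')
    (a : V) (s : ℝ) (S : Finset V) (s0 : 0 < s)
    (hS : ∀ g ∈ S, s ≤ r' g ∧ ∃ x, x ≤ μ * s ∧ Wk G r a g x) : S.card ≤ N + N * N * ω := by
  classical
  set T := Finset.univ.filter fun g => s ≤ r g ∧ ∃ x, x ≤ (μ + 2) * s ∧ Wk G r a g x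
  have hT : T.card ≤ N := pk_count' (by linarith) n1 n2 h a s T s0 fun g hg => (Finset.mem_filter.1 hg).2
  have sub : S ⊆ T ∪ (T ×ˢ T).biUnion fun p => Finset.univ.filter fun g => Opp G g p.1 p.2 := by
    intro g hg
    obtain ⟨a1, x, a2, a3⟩ := hS g hg
    by_cases e : s ≤ r g
    · exact Finset.mem_union_left _ (Finset.mem_filter.2
        ⟨Finset.mem_univ _, e, x, by linarith, a3⟩)
    · obtain ⟨b, b', b1, b2, b3⟩ := (h3 g).resolve_left fun e' => e (e' ▸ a1)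
      refine Finset.mem_union_right _ (Finset.mem_biUnion.2 ⟨(b, b'), Finset.mem_product.2
        ⟨Finset.mem_filter.2 ⟨Finset.mem_univ _, a1.trans b2, _, ?_, a3.tail b1.1⟩,
        Finset.mem_filter.2 ⟨Finset.mem_univ _, a1.trans b3, _, ?_, a3.tail b1.2.1⟩⟩,
        Finset.mem_filter.2 ⟨Finset.mem_univ _, b1⟩⟩) <;> linarith
  refine (Finset.card_le_card sub).trans ((Finset.card_union_le _ _).trans (add_le_add hT ?_))
  refine (Finset.card_biUnion_le_card_mul _ _ ω fun p _ => hω _ fun g hg g' hg' hne => ?_).trans ?_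
  · have e1 := (Finset.mem_filter.1 hg).2
    have e2 := (Finset.mem_filter.1 hg').2
    exact hs p.1 p.2 g g' e1.2.2.1 e1.2.2.2 e1.1 e1.2.1 e2.1 e2.2.1 hne
  · rw [Finset.card_product]; gcongr

theorem exists_LD' {E : ℝ} {j : ℕ} (E0 : 0 ≤ E) (hE : E ≤ 2 ^ j) {V : Type} [Fintype V]
    {G : SimpleGraph V} {r : V → ℝ} (h : PK G r E) (hs : NoSq G) (hω : ClB G 3)
    (hcon : ∀ u v, ReflTransGen G.Adj u v) :
    Nonempty (LD G (2 * j + 18) fun n => 2 ^ (2 * j + 8 * n + 44)) := by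
  set Λ := 40 * (2 * |E| + 1) with hΛ
  have hc : Λ * (4 + 8 * Λ) ≤ 2 ^ (2 * j + 18) := num_c E0 hE hΛ
  set c := 2 * j + 18
  classical
  obtain ⟨r', hr⟩ := exists_ext (G := G) r
  obtain ⟨ε, ε0, -, hε⟩ := FlD.exists_low r h.1
  have ex : ∀ x : ℝ, ∃ j : ℕ, x ≤ ε * 2 ^ j := fun x => by
    obtain ⟨j, hj⟩ := pow_unbounded_of_one_lt (x / ε) (one_lt_two (α := ℝ))
    exact ⟨j, ((div_lt_iff₀' ε0).1 hj).le⟩
  have ex2 : ∀ a g, ∃ j : ℕ, ∃ x, Wk G r a g x ∧ x ≤ ε * 2 ^ j := fun a g => by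
    obtain ⟨x, hx⟩ := Wk.of_rtg (r := r) (hcon a g)
    exact (ex x).imp fun j hj => ⟨x, hx, hj⟩
  have mono : ∀ {i j : ℕ}, i ≤ j → ε * 2 ^ i ≤ ε * 2 ^ j := fun h => by
    gcongr; exact one_le_two
  have ρ1 := fun v => Nat.find_spec (ex (2 * r' v))
  refine ⟨⟨fun v => Nat.find (ex (2 * r' v)), fun a g => Nat.find (ex2 a g), fun a => ?_,
    fun a b g => ?_, fun a g e => ?_, fun a g => ?_, fun v b b' e1 e2 e3 e4 => ?_,
    fun a K n s hS => ?_⟩⟩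
  · exact Nat.find_min' _ ⟨0, Wk.refl, by positivity⟩
  · obtain ⟨x, x1, x2⟩ := Nat.find_spec (ex2 a b)
    obtain ⟨y, y1, y2⟩ := Nat.find_spec (ex2 b g)
    refine Nat.find_min' _ ⟨_, x1.trans y1, ?_⟩
    rw [pow_succ]
    linarith [x2.trans (mono (le_max_left _ (Nat.find (ex2 b g)))),
      y2.trans (mono (le_max_right (Nat.find (ex2 a b)) _))]
  · exact Nat.find_min' _ ⟨_, Wk.refl.tail e, by linarith [ρ1 a, (hr a).1]⟩
  · obtain ⟨x, x1, x2⟩ := Nat.find_spec (ex2 a g)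
    refine Nat.find_min' _ ⟨_, x1.symm, ?_⟩
    rw [pow_succ]
    linarith [x2.trans (mono (le_max_left _ (Nat.find (ex (2 * r' g))))),
      (ρ1 g).trans (mono (le_max_right (Nat.find (ex2 a g)) _)), (hr g).1, h.1 a]
  · have k : ∀ b, r' b ≤ Λ * (4 + 8 * Λ) * r' v →
        Nat.find (ex (2 * r' b)) ≤ Nat.find (ex (2 * r' v)) + c := fun b hb => by
      refine Nat.find_min' _ ?_
      have a1 := (h.1 v).trans_le (hr v).1
      have a2 := mul_le_mul_of_nonneg_right hc a1.le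
      have a3 := mul_le_mul_of_nonneg_left (ρ1 v) (show (0 : ℝ) ≤ 2 ^ c by positivity)
      rw [pow_add]
      linarith
    rcases min_le_iff.1 (h.cl hs (fun v => (hr v).1) (fun v => (hr v).2.1) (fun v => (hr v).2.2)
      (le_refl Λ) ⟨e3, e4, e1, e2⟩) with e | e
    · exact (min_le_left _ _).trans (k b e)
    · exact (min_le_right _ _).trans (k b' e)
  · refine (ext_count' (μ := 4 * 2 ^ n * 2 ^ n) (by positivity) (num_n1 hE n) (num_n2 j n)
      h hs hω (fun v => (hr v).2.2) a (ε * 2 ^ K / (4 * 2 ^ n)) s (by positivity)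
      fun g hg => ⟨?_, ?_⟩).trans (num_n3 j n)
    · have a1 := mono (hS g hg).2
      have a2 : ε * 2 ^ Nat.find (ex (2 * r' g)) ≤ 4 * r' g := by
        rcases e : Nat.find (ex (2 * r' g)) with _ | j
        · linarith [hε g, (hr g).1, h.1 g]
        · have := Nat.find_min (ex (2 * r' g)) (m := j) (by omega)
          rw [pow_succ]; linarith
      rw [div_le_iff₀ (by positivity)]
      have a3 := mul_le_mul_of_nonneg_right a2 (show (0 : ℝ) ≤ 2 ^ n by positivity)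
      rw [pow_add] at a1
      linarith
    · obtain ⟨x, x1, x2⟩ := Nat.find_spec (ex2 a g)
      refine ⟨x, (x2.trans (mono (hS g hg).1)).trans (le_of_eq ?_), x1⟩
      rw [pow_add]; field_simp

theorem hypF_of_LD' (ω c : ℕ) (N : ℕ → ℕ) (h0 : 0 < ω) (p : ℕ)
    (hp : (1 - 1 / (ω : ℝ) ^ (2 * (ω * (ω + 1)))) ^ p ≤ 1 / (2 * (2 * N ((ω + 3) * (c + 2) + 4) *
      2 ^ ((ω + 3) * (c + 2) + 4) + 1)) ^ (2 * (ω * (ω + 1)))) {V : Type} [Fintype V]
    [DecidableEq V] (G : SimpleGraph V) [DecidableRel G.Adj] (hω : ClB G ω) (hs : NoSq G)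
    (D : LD G c N) : HypF G (p + 1) := by
  set n := (ω + 3) * (c + 2)
  set T := 2 * (ω * (ω + 1)) with hT
  have hT0 : 0 < T := by positivity
  set M0 : ℝ := 2 * N (n + 4) * 2 ^ (n + 4)
  have hM0 : 0 ≤ M0 := by positivity
  set θ : ℝ := 1 - 1 / (ω : ℝ) ^ T with hθ
  have hω1 : (1 : ℝ) ≤ (ω : ℝ) ^ T := one_le_pow₀ (by exact_mod_cast h0)
  have θ0 : 0 ≤ θ := by rw [hθ, sub_nonneg]; exact div_le_one_of_le₀ hω1 (by positivity)
  have θ1 : θ < 1 := by rw [hθ]; exact sub_lt_self _ (by positivity)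
  classical
  obtain ⟨C, C0, hC⟩ := D.card_okL (n + 4)
  let NS : ℕ → Finset (WG G) := fun r =>
    (Sph G (ω + 1) ×ˢ Finset.univ.sigma fun a => D.okL (n + 4) a r).image
      fun t => t.1 * (csG G).wordProd (t.2.2 ++ [t.2.1])
  have cNS : ∀ r, ((NS r).card : ℝ) ≤ (Sph G (ω + 1)).card * (Fintype.card V * (C * (M0 + 1) ^ r)) := by
    intro r
    refine (Nat.cast_le.2 Finset.card_image_le).trans ?_
    rw [Finset.card_product, Finset.card_sigma]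
    push_cast
    gcongr
    refine (Finset.sum_le_card_nsmul _ _ (C * (M0 + 1) ^ r) fun a _ => (hC a r).trans ?_).trans
      (by simp)
    gcongr
    linarith
  let β : WG G → ℝ := fun h => if (csG G).length h < ω + 2 then 1 else
    if h ∈ NS ((csG G).length h - (ω + 2)) then θ ^ (((csG G).length h - (ω + 2)) / T) else 0
  refine hypF_of_beta β (fun g => ?_) ((Sph G (ω + 1)).card * (Fintype.card V * (C *
    ((2 * (M0 + 1)) ^ T * 2 ^ (ω + 2))))) (ω + 2) (fun k hk S hS => ?_) fun x y hxy hn => ?_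
  · simp only [β]; split_ifs <;> positivity
  · obtain ⟨r, rfl⟩ := Nat.exists_eq_add_of_le hk
    calc ∑ g ∈ S, β g ^ (p + 1) ≤ ∑ g ∈ S ∩ NS r, (θ ^ (r / T)) ^ (p + 1) := by
          rw [← Finset.filter_mem_eq_inter, Finset.sum_filter]
          refine Finset.sum_le_sum fun g hg => le_of_eq ?_
          simp only [β, hS g hg, Nat.add_sub_cancel_left, if_neg (show ¬ ω + 2 + r < ω + 2 by omega)]
          split_ifs <;> simp
      _ ≤ (NS r).card * (θ ^ (r / T)) ^ (p + 1) := by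
          rw [Finset.sum_const, nsmul_eq_mul]
          gcongr
          exact Finset.inter_subset_right
      _ ≤ (Sph G (ω + 1)).card * (Fintype.card V * (C * (M0 + 1) ^ r)) * (θ ^ (r / T)) ^ (p + 1) := by
          gcongr
          exact cNS r
      _ = (Sph G (ω + 1)).card * (Fintype.card V * (C * ((M0 + 1) ^ r * (θ ^ (r / T)) ^ (p + 1)))) := by
          ring
      _ ≤ (Sph G (ω + 1)).card * (Fintype.card V * (C * ((2 * (M0 + 1)) ^ T * (1 / 2) ^ r))) := by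
          gcongr _ * (_ * (_ * ?_))
          exact cnt_num hT0 (by linarith) θ0 θ1.le hp
      _ = _ := by
          rw [pow_add (1 / 2 : ℝ), one_div_pow 2 (ω + 2)]; field_simp
  · refine ⟨fun h => D.F (ω * (ω + 1)) x y (phi G h) [], fun g hg => ?_, fun g hg => ?_,
      fun g q hq => ?_⟩
    · simp only
      rw [D.F_eq, if_pos (show LD.PZ G x _ from Or.inl (pre_simple.1 hg))]
    · simp only
      have h1 := pre_simple.1 hg
      rw [D.F_eq, if_neg, if_pos (show LD.PZ G y _ from Or.inl h1)]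
      rintro (h | h)
      · exact hn ((phi_normal g).1 _ h _ h1 rfl hxy)
      · exact hn (h _ h1).symm
    · simp only [β, phi_mul_mx hq]
      have hB := phi_normal (G := G) g
      split_ifs with h1 h2
      · have a1 := D.F_mem (ω * (ω + 1)) x y _ (phi G g) [] rfl
        have a2 := D.F_mem (ω * (ω + 1)) x y _ ((phi G g).erase q) [] rfl
        rw [abs_le]; constructor <;> linarith [a1.1, a1.2, a2.1, a2.2]
      · refine LD.edge_le hω hs hxy hn hB h0 ?_ hq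
        have := Nat.div_mul_le_self ((csG G).length g - (ω + 2)) T
        rw [← length_eq_card, ← hT]
        omega
      · rw [abs_nonpos_iff, sub_eq_zero]
        by_contra hc
        apply h2
        have c1 : ((phi G g).erase q).card = (phi G g).card - 1 := Finset.card_erase_of_mem hq.1
        rw [length_eq_card] at h1 ⊢
        obtain ⟨L, l1, l2⟩ := D.exists_run (ω * (ω + 1)) ((phi G g).card - (ω + 2))
          (X := (phi G g).erase q) (by omega)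
        have l3 := D.mem_okL (n := n) (p0 := q) (H := L) fun a z b e => by
          by_contra hc'
          have b4 := congrArg List.length e
          simp only [List.length_append, List.length_cons] at b4
          refine hc (LD.edge_eq hω hs h0 hxy hn hB hq (H0 := b) (y := z)
            (fun a' z' b' e' => l2 [] (a ++ a') z' b' (by simp [e, e'])) (by omega) hc')
        obtain ⟨l4, l5⟩ := (l2 []).hs.low
        have l6 := psi_hs (hB.erase hq) (l2 []).hs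
        have l7 := psi_erase _ _ rfl hB q hq
        have l8 := mem_Sph (G := G) (psi G ((phi G g).erase q \ L.toFinset))
        rw [length_eq_card, phi_psi _ _ rfl (l4.normal (hB.erase hq)),
          show ((phi G g).erase q \ L.toFinset).card = ω + 1 by omega] at l8
        refine Finset.mem_image.2 ⟨(_, ⟨q.2, L.map Prod.snd⟩), Finset.mem_product.2 ⟨l8,
          Finset.mem_sigma.2 ⟨Finset.mem_univ _, l1 ▸ l3⟩⟩, ?_⟩
        simp only
        rw [CoxeterSystem.wordProd_append, CoxeterSystem.wordProd_singleton, ← mul_assoc, ← l6,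
          ← l7, psi_phi]

lemma num_p {θ : ℝ} {p₀ j : ℕ} (θ0 : 0 ≤ θ) (h : θ ^ p₀ ≤ 1 / 2) (hj : 8 ≤ j) :
    θ ^ (p₀ * (300 * j * 24)) ≤ 1 / (2 * (2 * ((2 ^ (2 * j + 8 * ((3 + 3) * (2 * j + 18 + 2) + 4) + 44) : ℕ) : ℝ) *
      2 ^ ((3 + 3) * (2 * j + 18 + 2) + 4) + 1)) ^ (2 * (3 * (3 + 1))) := by
  obtain ⟨a, ha⟩ : ∃ a, a = (3 + 3) * (2 * j + 18 + 2) + 4 := ⟨_, rfl⟩
  rw [← ha]
  have h1 : (1 : ℝ) ≤ 2 ^ (2 * j + 9 * a + 45) := one_le_pow₀ one_le_two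
  have h2 : 2 * (2 * ((2 ^ (2 * j + 8 * a + 44) : ℕ) : ℝ) * 2 ^ a + 1) ≤ 2 ^ (300 * j) := by
    calc _ = 2 * ((2 : ℝ) ^ (2 * j + 9 * a + 45) + 1) := by push_cast; ring
      _ ≤ 2 ^ (2 * j + 9 * a + 45) * 2 ^ 2 := by linarith
      _ ≤ _ := by rw [← pow_add]; exact pow_le_pow_right₀ one_le_two (by omega)
  calc θ ^ (p₀ * (300 * j * 24)) ≤ (1 / 2) ^ (300 * j * 24) := by rw [pow_mul]; gcongr
    _ = 1 / (2 ^ (300 * j)) ^ 24 := by rw [one_div_pow, pow_mul]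
    _ ≤ _ := by gcongr

theorem upper : ∃ C : ℝ, ∀ k : ℕ, 2 ≤ k → ∀ (V : Type) [Fintype V] [DecidableEq V]
    (G : SimpleGraph V) [DecidableRel G.Adj] (χ : ℤ), IsSurfaceNerve G χ → -(k : ℤ) ≤ χ →
    IsHyperbolic (gp G) → ∀ m : MetricSpace (Bdry (gp G)), IsVisual (gp G) m →
      confDim m ≤ ENNReal.ofReal (C * log k) := by
  have θ0 : (0 : ℝ) ≤ 1 - 1 / ((3 : ℕ) : ℝ) ^ (2 * (3 * (3 + 1))) := by norm_num
  obtain ⟨p₀, hp⟩ := exists_pow_lt_of_lt_one (show (0 : ℝ) < 1 / 2 by norm_num)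
    (show 1 - 1 / ((3 : ℕ) : ℝ) ^ (2 * (3 * (3 + 1))) < 1 by norm_num)
  refine ⟨2 * (p₀ * (300 * 9 * 24) + 1), fun k hk V _ _ G _ χ a1 hχ a2 m hm => ?_⟩
  have := a1.1.nonempty
  have hS := surf_of_nerve a1 fun v => (G.degree_lt_card_verts v).le
  obtain ⟨r, hr⟩ := exists_PK hS
  obtain ⟨l, hl⟩ : ∃ l, l = Nat.log 2 k := ⟨_, rfl⟩
  have l1 : 1 ≤ l := hl ▸ Nat.log_pos one_lt_two hk
  have l2 : k < 2 ^ (l + 1) := hl ▸ Nat.lt_pow_succ_log_self one_lt_two k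
  have l3 : 2 ^ l ≤ k := hl ▸ Nat.pow_log_le_self 2 (by omega)
  have e1 : 7 * ((((-6 * χ).toNat : ℕ) : ℝ) + 16) ≤ 2 ^ (l + 8) := by
    have : 7 * ((-6 * χ).toNat + 16) ≤ 2 ^ (l + 8) := by
      rw [pow_succ] at l2
      rw [pow_add]
      omega
    exact_mod_cast this
  obtain ⟨D⟩ := exists_LD' (by positivity) e1 hr (noSq_of_hyp a2) hS.clB hS.1
  have hq := num_p θ0 hp.le (show 8 ≤ l + 8 by omega)
  have hF := hypF_of_LD' 3 (2 * (l + 8) + 18) (fun n => 2 ^ (2 * (l + 8) + 8 * n + 44))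
    (by norm_num) (p₀ * (300 * (l + 8) * 24)) (by exact hq) G hS.clB (noSq_of_hyp a2) D
  refine (confDim_le_of_hypF (by norm_num) hS.clB a2 hF m hm).trans ?_
  rw [← ENNReal.ofReal_natCast]
  refine ENNReal.ofReal_le_ofReal ?_
  have f1 : (l : ℝ) ≤ 2 * log k := by
    have h1 : log ((2 : ℝ) ^ l) ≤ log k := log_le_log (by positivity) (by exact_mod_cast l3)
    rw [log_pow] at h1
    nlinarith [log_two_gt_d9, Nat.cast_nonneg (α := ℝ) l]
  have f2 : p₀ * (300 * (l + 8) * 24) + 1 ≤ (p₀ * (300 * 9 * 24) + 1) * l := by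
    have : p₀ * (300 * (l + 8) * 24) ≤ p₀ * (300 * 9 * 24 * l) := Nat.mul_le_mul_left _ (by omega)
    nlinarith
  calc ((p₀ * (300 * (l + 8) * 24) + 1 : ℕ) : ℝ) ≤ (p₀ * (300 * 9 * 24) + 1) * l := by
        exact_mod_cast f2
    _ ≤ (p₀ * (300 * 9 * 24) + 1) * (2 * log k) := by gcongr
    _ = _ := by ring

end Pool.Agent.Lib.CD53
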