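import Pool.Agent.Lib.CD53.Srf2
import Pool.Agent.Lib.CD53.Mod
import Pool.Agent.Lib.CD53.Up

/-! Examples with conformal dimension of order `log k`. -/

namespace Pool.Agent.Lib.CD53

open SimpleGraph Pool.Agent.Lib.MP_845f45_al Vx
open scoped ENNReal

lemma clB_of {V : Type} [Fintype V] [DecidableEq V] {G : SimpleGraph V} [DecidableRel G.Adj]
    {χ : ℤ} (h : IsSurfaceNerve G χ) : ClB G 3 :=
  (surf_of_nerve h fun v => (G.degree_lt_card_verts v).le).clB

lemma visual_of {V : Type} [Fintype V] [DecidableEq V] {G : SimpleGraph V} [DecidableRel G.Adj]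
    {χ : ℤ} (h : IsSurfaceNerve G χ) (hδ : IsHyperbolic (gp G)) : ∃ m, IsVisual (gp G) m :=
  (trCoding three_pos (clB_of h) (noSq_of_hyp hδ)).exists_visual gp_comm hδ

theorem examples (k : ℕ) (hk : 144 ^ 6 ≤ k) : ∃ (V : Type) (_ : Fintype V) (_ : DecidableEq V)
    (G : SimpleGraph V) (_ : DecidableRel G.Adj) (χ : ℤ), IsSurfaceNerve G χ ∧
    (∃ σ : V → V → V, ∀ v u, G.Adj v u →
      G.Adj v (σ v u) ∧ G.Adj u (σ v u) ∧ σ u (σ v u) = v ∧ σ v u ≠ σ u v) ∧
    -(k : ℤ) ≤ χ ∧ IsHyperbolic (gp G) ∧ ∀ m : MetricSpace (Bdry (gp G)), IsVisual (gp G) m →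
      ENNReal.ofReal (1 / (12 * Real.log 144) * Real.log k) ≤ confDim m := by
  classical
  obtain ⟨s, hs⟩ := Nat.exists_eq_succ_of_ne_zero (Nat.log_pos (b := 144 ^ 6) (by norm_num) hk).ne'
  have k1 := Nat.pow_log_le_self (144 ^ 6) (x := k) (by omega)
  have k2 := Nat.lt_pow_succ_log_self (b := 144 ^ 6) (by norm_num) k
  rw [hs] at k1 k2
  obtain ⟨q, q1, q2, q3⟩ := Nat.exists_prime_lt_and_le_two_mul (144 ^ s + 2) (by positivity)
  have : Fact q.Prime := ⟨q1⟩
  have s0 : 0 < 144 ^ s := by positivity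
  have h2 : (2 : ZMod q) ≠ 0 := fun e => by
    have := Nat.le_of_dvd two_pos ((ZMod.natCast_eq_zero_iff 2 q).1 (by exact_mod_cast e))
    omega
  let _ : Fintype (Vx (ZMod q)) := Fintype.ofInjective _ cd_inj
  have hS : IsSurfaceNerve (GF (ZMod q)) _ := ⟨conn, links h2, rfl⟩
  have hB := br (F := ZMod q)
  rw [ZMod.card] at hB
  obtain ⟨H, hH, -⟩ := hB.three (pl true 0 0) (pl false 0 0) (pl true 1 0) ⟨_, _, _, rfl⟩
    ⟨_, _, _, rfl⟩ ⟨_, _, _, rfl⟩ (by simp [pl_adj]) (by simp [pl_adj]) (by simp [pl_inj])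
  refine ⟨_, _, inferInstance, GF (ZMod q), inferInstance, _, hS, ⟨sg, sg_spec h2⟩, ?_,
    hyp_of (clB_of hS) (nosq h2), fun m hm => le_trans ?_ (lower three_pos (clB_of hS) (nosq h2)
      hB (hH ⟨0, by omega⟩).1 (s := s) (by omega) m hm)⟩
  · have a := Fintype.card_le_of_injective _ (cd_inj (F := ZMod q))
    simp only [Fintype.card_prod, Fintype.card_fin, ZMod.card] at a
    have b := (GF (ZMod q)).card_edgeFinset_le_card_choose_two.trans (Nat.choose_le_pow _ 2)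
    have c : (5 * (q * (q * q))) ^ 2 ≤ k :=
      calc _ = 25 * q ^ 6 := by ring
        _ ≤ 25 * (6 * 144 ^ s) ^ 6 := by gcongr; omega
        _ = 25 * 6 ^ 6 * (144 ^ 6) ^ s := by rw [mul_pow, ← pow_mul, ← pow_mul, mul_comm s]; ring
        _ ≤ 144 ^ 6 * (144 ^ 6) ^ s := by gcongr; norm_num
        _ ≤ k := by rwa [← pow_succ']
    have := b.trans ((Nat.pow_le_pow_left a 2).trans c)
    omega
  · rw [← ENNReal.ofReal_natCast]
    refine ENNReal.ofReal_le_ofReal ?_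
    have l0 : 0 < Real.log 144 := Real.log_pos (by norm_num)
    have l1 : Real.log k ≤ Real.log ((144 ^ 6) ^ (s + 2)) :=
      Real.log_le_log (by exact_mod_cast (by omega : 0 < k)) (by exact_mod_cast k2.le)
    rw [Real.log_pow, Real.log_pow] at l1
    rw [one_div_mul_eq_div, div_le_iff₀ (by positivity)]
    push_cast at l1 ⊢
    nlinarith [Nat.cast_nonneg (α := ℝ) s]

end Pool.Agent.Lib.CD53
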