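import Pool.Agent.Lib.CD53.Apt2
import Pool.Agent.Lib.MP_845f45_al.Bd3

/-! Rays, their limits, and quasisymmetric metrics. -/

namespace Pool.Agent.Lib.CD53

open Filter Topology Pool.Agent.Lib.MP_845f45_al
open scoped NNReal ENNReal

variable {V : Type} [DecidableEq V] {G : SimpleGraph V} [DecidableRel G.Adj] {ω : ℕ}

lemma gp_ge' {y w y' w' : WG G} (h : Pre G y w) (h' : Pre G y' w') :
    ((csG G).length y : ℝ) - dW G y y' ≤ gp G w w' := by
  obtain ⟨u, u1, u2⟩ := (csG G).exists_isReduced (y⁻¹ * y')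
  have := gp_ge_of_pre h h' (u := u) (by rw [← u2]; group)
  rwa [dW, u2, u1.eq]

lemma hyp_of (hω : ClB G ω) (hs : NoSq G) : IsHyperbolic (gp G) := by
  refine ⟨2 * ω + 1, fun x y z => ?_⟩
  obtain ⟨m, a1, a2, a3⟩ := exists_pre_gp x y
  obtain ⟨m', b1, b2, b3⟩ := exists_pre_gp y z
  set k := min ((csG G).length m) ((csG G).length m')
  have c1 : k ≤ (csG G).length m := min_le_left _ _
  have c2 : k ≤ (csG G).length m' := min_le_right _ _
  have d : dW G _ _ ≤ _ := dist_le_of_pre hω hs ((trc_pre m k).tr a2) ((trc_pre m' k).tr b1)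
    ((trc_len c1).trans (trc_len c2).symm)
  have e := gp_ge' ((trc_pre m k).tr a1) ((trc_pre m' k).tr b2)
  rw [trc_len c1] at e
  have d' : (dW G (trc G m k) (trc G m' k) : ℝ) ≤ 2 * ω := by exact_mod_cast d
  have : min (gp G x y) (gp G y z) ≤ k := by
    rw [Nat.cast_min]; exact min_le_min a3 b3
  linarith

variable (G) in
abbrev RT : Type := {r : ℕ → WG G // Ray G r}

lemma gp_ray (r r' : RT G) {k i j : ℕ} (hi : k ≤ i) (hj : k ≤ j) :
    (k : ℝ) - dW G (r.1 k) (r'.1 k) ≤ gp G (r.1 i) (r'.1 j) := by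
  have := gp_ge' (r.2.pre hi) (r'.2.pre hj)
  rwa [show (csG G).length (r.1 k) = k from (r.2 k).1] at this

lemma gp_lt (hω : ClB G ω) (hs : NoSq G) (r r' : RT G) {k i j : ℕ}
    (h : 4 * ω < dW G (r.1 k) (r'.1 k)) (hi : k ≤ i) (hj : k ≤ j) :
    gp G (r.1 i) (r'.1 j) ≤ k := by
  obtain ⟨m, a1, a2, a3⟩ := exists_pre_gp (r.1 i) (r'.1 j)
  refine a3.trans (Nat.cast_le.2 (not_lt.1 fun c => ?_))
  have d1 : dW G _ _ ≤ _ := dist_le_of_pre hω hs (r.2.pre hi) ((trc_pre m k).tr a1)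
    ((r.2 k).1.trans (trc_len c.le).symm)
  have d2 : dW G _ _ ≤ _ := dist_le_of_pre hω hs ((trc_pre m k).tr a2) (r'.2.pre hj)
    ((trc_len c.le).trans (r'.2 k).1.symm)
  have := dW_tri (r.1 k) (trc G m k) (r'.1 k)
  omega

lemma gp_sep (hω : ClB G ω) (hs : NoSq G) {a b : V} (hne : a ≠ b) (hab : ¬ G.Adj a b)
    {v w : WG G} (h : Pre G (mu G 1 a) v) (h' : Pre G (mu G 1 b) w) : gp G v w ≤ ω := by
  obtain ⟨m, a1, a2, a3⟩ := exists_pre_gp v w
  have key : ∀ a v, Pre G (mu G 1 a) v → Pre G m v → LD.PZ G a (phi G m) := fun a v h h' => by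
    rw [mu, one_mul, pre_simple] at h
    by_cases c : (0, a) ∈ phi G m
    · exact Or.inl c
    refine Or.inr fun p hp => ?_
    rcases Nat.eq_zero_or_pos p.1 with e | e
    · exact (phi_normal v).1 p (h'.1 hp) _ h e fun e' => c (Prod.ext e e' ▸ hp)
    · exact (h'.2 _ h c p hp e).symm
  refine a3.trans ?_
  rw [length_eq_card]
  exact_mod_cast LD.PZ.both hω hs hne hab (phi_normal m) (key a v h a1) (key b w h' a2)

/-- the limit of a ray -/
def xi (r : RT G) : Bdry (gp G) := Quot.mk _ ⟨r.1, tendsto_atTop.2 fun c => by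
  obtain ⟨k, hk⟩ := exists_nat_ge c
  filter_upwards [ev_box k] with p hp
  simpa [dW_self] using (gp_ray r r hp.1 hp.2).trans' (by simpa [dW_self] using hk)⟩

variable [Fintype V]

lemma vis (h0 : 0 < ω) (hω : ClB G ω) (hs : NoSq G) {m : MetricSpace (Bdry (gp G))}
    (hm : IsVisual (gp G) m) : ∃ a K κ : ℝ, 1 < a ∧ 0 < K ∧ 0 < κ ∧
    (∀ (r r' : RT G) k D, dW G (r.1 k) (r'.1 k) ≤ D → m.dist (xi r) (xi r') * a ^ k ≤ K * a ^ D) ∧
    ∀ (r r' : RT G) (M N : ℕ), (∀ i j, N ≤ i → N ≤ j → gp G (r.1 i) (r'.1 j) ≤ M) →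
      κ ≤ m.dist (xi r) (xi r') * a ^ M := by
  have hδ := hyp_of hω hs
  obtain ⟨L, hL⟩ := (trCoding h0 hω hs).ev_bound gp_comm hδ
  obtain ⟨L', hL'⟩ := (trCoding h0 hω hs).bdProd_bound gp_comm hδ
  have key : ∀ r r' : RT G, xi r ≠ xi r' → ∀ N, ∃ i j, N ≤ i ∧ N ≤ j ∧
      gp G (r.1 i) (r'.1 j) - (L + L') ≤ bdProd (gp G) (xi r) (xi r') ∧
      bdProd (gp G) (xi r) (xi r') ≤ gp G (r.1 i) (r'.1 j) + (L + L') := fun r r' hne N => by
    obtain ⟨p, p1, p2⟩ := ((hL _ _ hne _ _ rfl rfl).and (ev_box N)).exists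
    have := hL' _ _ hne
    exact ⟨p.1, p.2, p2.1, p2.2, by linarith [p1.2], by linarith [p1.1]⟩
  obtain ⟨a, k, K, ha, hk, hv⟩ := hm
  have a0 : 0 < a := by linarith
  refine ⟨a, max K 1 * a ^ (L + L'), k * a ^ (-(L + L')), ha, by positivity, by positivity,
    fun r r' j D h => ?_, fun r r' M N h => ?_⟩
  · by_cases hne : xi r = xi r'
    · rw [hne, @dist_self _ m.toPseudoMetricSpace, zero_mul]; positivity
    obtain ⟨i, i', c1, c2, c3, -⟩ := key r r' hne j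
    have := gp_ray r r' c1 c2
    have h' : (dW G (r.1 j) (r'.1 j) : ℝ) ≤ D := by exact_mod_cast h
    calc _ ≤ max K 1 * a ^ (-bdProd (gp G) (xi r) (xi r')) * a ^ j := by
          gcongr
          exact (hv _ _ hne).2.trans (by gcongr; exact le_max_left _ _)
      _ ≤ _ := by
          rw [mul_assoc, mul_assoc, ← Real.rpow_natCast a j, ← Real.rpow_natCast a D,
            ← Real.rpow_add a0, ← Real.rpow_add a0]
          exact mul_le_mul_of_nonneg_left (Real.rpow_le_rpow_of_exponent_le ha.le (by linarith))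
            (by positivity)
  · have hne : xi r ≠ xi r' := fun e => by
      obtain ⟨i, i1, i2⟩ := ((tendsto_atTop.1 (((rel_equiv gp_comm hδ).quot_mk_eq_iff _ _).1 e)
        (M + 1)).and (eventually_ge_atTop N)).exists
      linarith [h i i i2 i2]
    obtain ⟨i, i', c1, c2, -, c3⟩ := key r r' hne N
    have := h i i' c1 c2
    refine le_trans ?_ (mul_le_mul_of_nonneg_right (hv _ _ hne).1 (by positivity))
    rw [mul_assoc, ← Real.rpow_natCast, ← Real.rpow_add a0]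
    gcongr
    · exact ha.le
    · linarith

lemma eta_zero (η : ℝ≥0 ≃ₜ ℝ≥0) : η 0 = 0 := by
  rcases η.continuous.strictMono_of_inj η.injective with h | h
  · simpa using h.monotone (zero_le (a := η.symm 0))
  · simpa using h.antitone (zero_le (a := η.symm (η 0 + 1)))

/-- the three properties of a quasisymmetric metric which are used -/
lemma qs_facts (h0 : 0 < ω) (hω : ClB G ω) (hs : NoSq G) {m m' : MetricSpace (Bdry (gp G))}
    (hm : IsVisual (gp G) m) (hq : QSEquiv m m') (r₀ r₁ : RT G)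
    (h01 : ∀ i j, 1 ≤ i → 1 ≤ j → gp G (r₀.1 i) (r₁.1 j) ≤ ω) : ∃ Λ c : ℝ, 1 ≤ Λ ∧ 0 < c ∧
    (∀ (r r' ρ : RT G) k, 4 * ω < dW G (r.1 (k + 1)) (r'.1 (k + 1)) →
      dW G (r.1 k) (ρ.1 k) ≤ 6 * ω → m'.dist (xi r) (xi ρ) ≤ Λ * m'.dist (xi r) (xi r')) ∧
    (∀ (r : RT G) δ, 0 < δ → ∃ k, ∀ ρ : RT G, dW G (r.1 k) (ρ.1 k) ≤ 6 * ω →
      m'.dist (xi r) (xi ρ) ≤ δ) ∧
    ∀ r r' : RT G, (∀ i j, 1 ≤ i → 1 ≤ j → gp G (r.1 i) (r'.1 j) ≤ ω) →
      c ≤ m'.dist (xi r) (xi r') := by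
  obtain ⟨a, K, κ, ha, hK, hκ, v1, v2⟩ := vis h0 hω hs hm
  obtain ⟨η, hη⟩ := hq
  have a0 : 0 < a := by linarith
  have n0 := @dist_nonneg _ m.toPseudoMetricSpace
  have n1 := @dist_nonneg _ m'.toPseudoMetricSpace
  have ne : xi r₀ ≠ xi r₁ := fun e => by
    have := v2 _ _ _ _ h01
    rw [e, @dist_self _ m.toPseudoMetricSpace] at this
    linarith
  have p0 := (@dist_pos _ m' _ _).2 ne
  let t : ℝ≥0 := ⟨K * a ^ (6 * ω + 1) / κ, by positivity⟩
  have q1 : ∀ (r r' ρ : RT G) k M, M ≤ k + 1 + 6 * ω → κ ≤ m.dist (xi r) (xi r') * a ^ M →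
      ∀ D, D + M ≤ k + 1 + 6 * ω → dW G (r.1 k) (ρ.1 k) ≤ D →
      m'.dist (xi r) (xi ρ) ≤ η t * m'.dist (xi r) (xi r') := fun r r' ρ k M _ h D hD h' => by
    refine hη _ _ _ t ?_
    change _ ≤ K * a ^ (6 * ω + 1) / κ * _
    rw [div_mul_eq_mul_div, le_div_iff₀ hκ]
    refine le_of_mul_le_mul_right ?_ (pow_pos a0 k)
    have := n0 (x := xi r) (y := xi r')
    calc _ = m.dist (xi r) (xi ρ) * a ^ k * κ := by ring
      _ ≤ K * a ^ D * (m.dist (xi r) (xi r') * a ^ M) :=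
          mul_le_mul (v1 _ _ _ _ h') h hκ.le (by positivity)
      _ = K * m.dist (xi r) (xi r') * a ^ (D + M) := by ring
      _ ≤ K * m.dist (xi r) (xi r') * a ^ (k + 1 + 6 * ω) := by gcongr; exact ha.le
      _ = _ := by ring
  refine ⟨η t + 1, m'.dist (xi r₀) (xi r₁) / (2 * (η t + 1)), by simp, by positivity,
    fun r r' ρ k h h' => ?_, fun r δ hδ => ?_, fun r r' h => ?_⟩
  · refine (q1 r r' ρ k (k + 1) (by omega) (v2 _ _ _ (k + 1) fun i j hi hj => ?_) _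
      (by omega) h').trans (by gcongr; simp)
    exact gp_lt hω hs r r' h hi hj
  · obtain ⟨z, hz⟩ : ∃ z, xi r ≠ z := by
      by_cases e : xi r = xi r₀
      exacts [⟨_, e ▸ ne⟩, ⟨_, e⟩]
    have z0 := (@dist_pos _ m _ _).2 hz
    have z1 := (@dist_pos _ m' _ _).2 hz
    let τ : ℕ → ℝ≥0 := fun k => ⟨K * a ^ (6 * ω) / m.dist (xi r) z * a⁻¹ ^ k, by positivity⟩
    have t1 : Tendsto τ atTop (𝓝 0) := by
      have := (tendsto_pow_atTop_nhds_zero_of_lt_one (by positivity)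
        (inv_lt_one_of_one_lt₀ ha)).const_mul (K * a ^ (6 * ω) / m.dist (xi r) z)
      rw [mul_zero] at this
      exact NNReal.tendsto_coe.1 this
    have t2 := NNReal.tendsto_coe.2 ((η.continuous.tendsto 0).comp t1)
    rw [eta_zero] at t2
    obtain ⟨k, hk⟩ := (t2.eventually (gt_mem_nhds (div_pos hδ z1))).exists
    refine ⟨k, fun ρ h => (hη _ _ z (τ k) ?_).trans ((le_div_iff₀ z1).1 hk.le)⟩
    change _ ≤ K * a ^ (6 * ω) / m.dist (xi r) z * a⁻¹ ^ k * _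
    have := v1 _ _ _ _ h
    rw [inv_pow]
    field_simp
    linarith
  · have key : ∀ ρ : RT G, m'.dist (xi r) (xi ρ) ≤ (η t + 1) * m'.dist (xi r) (xi r') := fun ρ =>
      (q1 r r' ρ 0 ω (by omega) (v2 _ _ _ 1 h) 0 (by omega) (by
        rw [ln_eq_zero.1 (r.2 0).1, ln_eq_zero.1 (ρ.2 0).1, dW_self])).trans (by gcongr; simp)
    have := @dist_triangle_left _ m'.toPseudoMetricSpace (xi r₀) (xi r₁) (xi r)
    rw [div_le_iff₀ (by positivity)]
    linarith [key r₀, key r₁]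

lemma cover_of_dimH {X : Type} [MetricSpace X] {p : ℕ} (h : dimH (Set.univ : Set X) < (p + 1 : ℕ))
    {ε : ℝ} (hε : 0 < ε) : ∃ (t : ℕ → Set X) (δ : ℕ → ℝ), (∀ x, ∃ i, x ∈ t i) ∧ (∀ i, 0 < δ i) ∧
      (∀ i, ∀ x ∈ t i, ∀ y ∈ t i, dist x y ≤ δ i) ∧
      ∀ N, ∑ i ∈ Finset.range N, δ i ^ (p + 1) ≤ ε := by
  borelize X
  wlog h1 : ε ≤ 1 generalizing ε
  · obtain ⟨t, δ, a, b, c, d⟩ := this one_pos le_rfl
    exact ⟨t, δ, a, b, c, fun N => (d N).trans (not_le.1 h1).le⟩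
  have h2 := hausdorffMeasure_of_dimH_lt (d := ((p + 1 : ℕ) : ℝ≥0)) (by simpa using h)
  rw [MeasureTheory.Measure.hausdorffMeasure_apply] at h2
  have h3 := (le_iSup₂ (f := fun (r : ℝ≥0∞) (_ : 0 < r) => _) 1 one_pos).trans h2.le
  have h4 := h3.trans_lt (ENNReal.ofReal_pos.2 (show 0 < ε / 3 by positivity))
  simp only [iInf_lt_iff] at h4
  obtain ⟨t, t1, t2, t3⟩ := h4
  have fin : ∀ i, Metric.ediam (t i) ≠ ⊤ := fun i => ((t2 i).trans_lt ENNReal.one_lt_top).ne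
  refine ⟨t, fun i => max (Metric.diam (t i)) (ε / 3 * (1 / 2) ^ i), fun x =>
    Set.mem_iUnion.1 (t1 (Set.mem_univ x)), fun i => lt_max_of_lt_right (by positivity),
    fun i x hx y hy => le_max_of_le_left (Metric.dist_le_diam_of_mem' (fin i) hx hy), fun N => ?_⟩
  have s1 : ∑ i ∈ Finset.range N, Metric.diam (t i) ^ (p + 1) ≤ ε / 3 := by
    refine (ENNReal.ofReal_le_ofReal_iff (by positivity)).1 (le_trans ?_ t3.le)
    rw [ENNReal.ofReal_sum_of_nonneg fun i _ => by positivity]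
    refine le_trans (Finset.sum_le_sum fun i _ => ?_) (ENNReal.sum_le_tsum (Finset.range N))
    rcases (t i).eq_empty_or_nonempty with e | e
    · simp [e]
    · rw [iSup_pos e, ENNReal.ofReal_pow Metric.diam_nonneg, Metric.diam,
        ENNReal.ofReal_toReal (fin i), NNReal.coe_natCast, ENNReal.rpow_natCast]
  have s2 := sum_geometric_two_le N
  calc _ ≤ ∑ i ∈ Finset.range N, (Metric.diam (t i) ^ (p + 1) + ε / 3 * (1 / 2) ^ i) := by
        refine Finset.sum_le_sum fun i _ => ?_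
        have b0 : 0 ≤ ε / 3 * (1 / 2 : ℝ) ^ i := by positivity
        have b1 : (1 / 2 : ℝ) ^ i ≤ 1 := pow_le_one₀ (by norm_num) (by norm_num)
        have b2 := pow_le_of_le_one b0 (by nlinarith) (Nat.add_one_ne_zero p)
        have b3 : 0 ≤ Metric.diam (t i) ^ (p + 1) := by positivity
        beta_reduce
        rcases max_cases (Metric.diam (t i)) (ε / 3 * (1 / 2) ^ i) with e | e <;> rw [e.1] <;>
          linarith
    _ ≤ ε := by
        rw [Finset.sum_add_distrib, ← Finset.mul_sum]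
        nlinarith

end Pool.Agent.Lib.CD53
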