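import Pool.Agent.Lib.CD53.Apt
import Pool.Agent.Lib.MP_845f45_al.Lev

/-! A flag triangulation without empty squares around the incidence graph of a biaffine plane. -/

namespace Pool.Agent.Lib.CD53

open SimpleGraph Function Pool.Agent.Lib.MP_845f45_al

lemma link_of_succ {V : Type} (G : SimpleGraph V) (v : V) (σ : V → V) (u₀ w₀ : V)
    (h0 : G.Adj v u₀) (hw : G.Adj v w₀) (e : σ w₀ = u₀) (h1 : ∀ u, G.Adj v u → G.Adj v (σ u))
    (h2 : ∀ u w, G.Adj v u → G.Adj v w → (G.Adj u w ↔ w = σ u ∨ u = σ w))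
    (h3 : ∀ p : V → Prop, p u₀ → (∀ u, p u → p (σ u)) → ∀ u, G.Adj v u → p u)
    (h4 : σ (σ u₀) ≠ u₀) (h5 : σ (σ (σ u₀)) ≠ u₀) :
    ∃ n, 4 ≤ n ∧ Nonempty (G.induce (G.neighborSet v) ≃g cycleGraph n) := by
  have a1 : ∀ k, G.Adj v (σ^[k] u₀) := fun k => by
    induction k with
    | zero => exact h0
    | succ k ih => rw [iterate_succ_apply']; exact h1 _ ih
  have a2 := h3 (fun u => ∃ k, σ^[k] u₀ = u) ⟨0, rfl⟩ (by
    rintro _ ⟨k, rfl⟩; exact ⟨k + 1, iterate_succ_apply' _ _ _⟩)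
  have a3 : u₀ ∈ periodicPts σ := by
    obtain ⟨k, rfl⟩ := a2 w₀ hw
    exact ⟨k + 1, k.succ_pos, (iterate_succ_apply' _ _ _).trans e⟩
  have a4 := minimalPeriod_pos_of_mem_periodicPts a3
  have a5 : σ^[minimalPeriod σ u₀] u₀ = u₀ := isPeriodicPt_minimalPeriod σ u₀
  have a6 : σ u₀ ≠ u₀ := ((h2 _ _ h0 (h1 _ h0)).2 (Or.inl rfl)).ne'
  obtain ⟨m, hm⟩ : ∃ m, minimalPeriod σ u₀ = m + 4 := by
    refine Nat.exists_eq_add_of_le' (not_lt.1 fun c => ?_)
    generalize minimalPeriod σ u₀ = l at *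
    interval_cases l
    exacts [a6 a5, h4 a5, h5 a5]
  let f : Fin (m + 4) → G.neighborSet v := fun i => ⟨σ^[i] u₀, a1 i⟩
  have f1 : ∀ i j : Fin (m + 4), σ^[i] u₀ = σ^[j] u₀ ↔ i = j := fun i j => by
    rw [iterate_eq_iterate_iff_of_lt_minimalPeriod (i.2.trans_eq hm.symm) (j.2.trans_eq hm.symm), Fin.ext_iff]
  have f2 : ∀ i : Fin (m + 4), σ (σ^[i] u₀) = σ^[(i + 1 : Fin (m + 4))] u₀ := fun i => by
    rw [← iterate_succ_apply' σ, ← iterate_mod_minimalPeriod_eq, hm, Fin.val_add]; rfl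
  refine ⟨m + 4, by omega, ⟨Iso.symm ⟨Equiv.ofBijective f ⟨fun i j h => (f1 i j).1
    (congrArg Subtype.val h), fun u => ?_⟩, fun {i j} => ?_⟩⟩⟩
  · obtain ⟨k, hk⟩ := a2 u.1 u.2
    refine ⟨⟨k % (m + 4), Nat.mod_lt _ (by omega)⟩, Subtype.ext ?_⟩
    rw [← hk, ← iterate_mod_minimalPeriod_eq (n := k), hm]
  · refine (h2 _ _ (a1 i) (a1 j)).trans ?_
    rw [f2, f2, f1, f1, cycleGraph_adj (n := m + 2), or_comm, sub_eq_iff_eq_add',
      sub_eq_iff_eq_add']

/-- points, lines, the two sides of a flag, and face centres -/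
inductive Vx (F : Type) : Type
  | P (x y : F) : Vx F
  | L (a b : F) : Vx F
  | U (x y a : F) : Vx F
  | D (x y a : F) : Vx F
  | Z (s c : F) : Vx F

open Vx

variable {F : Type} [Field F]

def E : Vx F → Vx F → Prop
  | P x y, L a b | L a b, P x y => y + b = x * a
  | P x y, U x' y' _ | U x' y' _, P x y | P x y, D x' y' _ | D x' y' _, P x y => x' = x ∧ y' = y
  | L a b, U x y a' | U x y a', L a b | L a b, D x y a' | D x y a', L a b =>
    a' = a ∧ y + b = x * a
  | U x y a, D x' y' a' | D x' y' a', U x y a =>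
    (x' = x + 1 ∧ y' = y + a ∧ a' = a) ∨ (x' = x ∧ y' = y ∧ a = a' + 2)
  | Z s c, U x y a | U x y a, Z s c => s = a - 2 * x - 1 ∧ c = y - a * x + x ^ 2 + x
  | Z s c, D x y a | D x y a, Z s c => s = a - 2 * x + 1 ∧ c = y - a * x + x ^ 2 - x
  | _, _ => False

variable (F) in
def GF : SimpleGraph (Vx F) where
  Adj := E
  symm := ⟨fun u v h => by cases u <;> cases v <;> exact h⟩
  loopless := ⟨fun u h => by cases u <;> exact h⟩

open Classical in
/-- the rotation system -/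
noncomputable def sg : Vx F → Vx F → Vx F
  | P x y, U _ _ a => L a (x * a - y)
  | P x y, L a _ => D x y a
  | P x y, D _ _ a => U x y (a + 2)
  | L a _, P x y => U x y a
  | L _ _, D x y _ => P x y
  | L _ _, U x y a => D (x + 1) (y + a) a
  | U x y _, L _ _ => P x y
  | U x y a, P _ _ => D x y (a - 2)
  | U x y a, D x' _ _ =>
    if x' = x then Z (a - 2 * x - 1) (y - a * x + x ^ 2 + x) else L a (x * a - y)
  | U x y a, Z _ _ => D (x + 1) (y + a) a
  | D x y a, P _ _ => L a (x * a - y)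
  | D x y a, L _ _ => U (x - 1) (y - a) a
  | D x y a, U x' _ _ => if x' = x then P x y else Z (a - 2 * x + 1) (y - a * x + x ^ 2 - x)
  | D x y a, Z _ _ => U x y (a + 2)
  | Z _ _, U x y a => D x y (a - 2)
  | Z _ _, D x y a => U (x - 1) (y - a) a
  | v, _ => v

lemma sg_spec (h2 : (2 : F) ≠ 0) (v u : Vx F) (h : E v u) :
    E v (sg v u) ∧ E u (sg v u) ∧ sg u (sg v u) = v ∧ sg v u ≠ sg u v := by
  cases v <;> cases u <;> simp only [E] at h <;> simp only [sg] <;> (try split_ifs) <;>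
    simp [E, sg] <;> grind

lemma sg_link (h2 : (2 : F) ≠ 0) (v u w : Vx F) (h : E v u) (h' : E v w) (e : E u w) :
    w = sg v u ∨ u = sg v w := by
  cases v <;> cases u <;> simp only [E] at h <;> cases w <;> simp only [E] at h' e <;>
    simp only [sg] <;> (try split_ifs) <;> simp <;> grind

lemma nosq (h2 : (2 : F) ≠ 0) : NoSq (GF F) := by
  intro a c b d h1 h3 h4 h5 h6 h7 h8
  change ¬ E a c at h3
  change E b a at h4
  change E b c at h5
  change E d a at h6
  change E d c at h7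
  change E b d
  cases a <;> cases b <;> simp only [E] at h4 <;> cases c <;> simp only [E] at h5 <;>
    cases d <;> simp only [E] at h6 h7 <;> simp only [E] at h3 ⊢ <;>
    simp only [ne_eq, P.injEq, L.injEq, U.injEq, D.injEq, Z.injEq, reduceCtorEq] at h1 h8 <;> grind

end Pool.Agent.Lib.CD53
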