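import Pool.Agent.Lib.CD53.Srf

/-! The triangulation is a closed surface and its point-line graph branches. -/

namespace Pool.Agent.Lib.CD53

open SimpleGraph Function Pool.Agent.Lib.MP_845f45_al Vx

section
variable {F : Type} [Field F]

/-- points and lines in symmetric coordinates -/
def pl : Bool → F → F → Vx F
  | true, x, y => P x y
  | false, x, y => L x y

lemma pl_adj {e e' : Bool} {x y a b : F} :
    (GF F).Adj (pl e x y) (pl e' a b) ↔ e' = !e ∧ y + b = x * a := by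
  change E _ _ ↔ _
  cases e <;> cases e' <;> simp [pl, E, add_comm, mul_comm]

omit [Field F] in
lemma pl_inj {e e' : Bool} {x y a b : F} : pl e x y = pl e' a b ↔ e = e' ∧ x = a ∧ y = b := by
  cases e <;> cases e' <;> simp [pl]

variable (F) in
def BF : Set (Vx F) := {v | ∃ e x y, v = pl e x y}

lemma hex_of (e : Bool) {x₀ y₀ a₁ b₁ x₂ y₂ a₃ b₃ x₄ y₄ a₅ b₅ : F} (h1 : y₀ + b₁ = x₀ * a₁)
    (h2 : y₂ + b₁ = x₂ * a₁) (h3 : y₂ + b₃ = x₂ * a₃) (h4 : y₄ + b₃ = x₄ * a₃)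
    (h5 : y₄ + b₅ = x₄ * a₅) (h6 : y₀ + b₅ = x₀ * a₅) (n1 : y₀ + b₃ ≠ x₀ * a₃)
    (n2 : y₂ + b₅ ≠ x₂ * a₅) (n3 : y₄ + b₁ ≠ x₄ * a₁) :
    Hex (GF F) (BF F) ![pl e x₀ y₀, pl (!e) a₁ b₁, pl e x₂ y₂, pl (!e) a₃ b₃, pl e x₄ y₄,
      pl (!e) a₅ b₅] := by
  refine ⟨fun i => ?_, fun i j => ?_⟩
  · fin_cases i <;> exact ⟨_, _, _, rfl⟩
  · fin_cases i <;> fin_cases j <;> simp [pl_adj] <;> grind

omit [Field F] in
lemma avoid [Fintype F] (x x' : F) :
    ∃ τ : Fin (Fintype.card F - 2) → F, Injective τ ∧ ∀ γ, τ γ ≠ x ∧ τ γ ≠ x' := by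
  classical
  obtain ⟨f⟩ := Embedding.nonempty_of_card_le (α := Fin (Fintype.card F - 2))
    (β := (({x, x'} : Finset F)ᶜ : Finset F)) (by
      rw [Fintype.card_fin, Fintype.card_coe, Finset.card_compl]
      exact Nat.sub_le_sub_left Finset.card_le_two _)
  exact ⟨fun γ => f γ, Subtype.val_injective.comp f.injective, fun γ => by simpa using (f γ).2⟩

lemma br [Fintype F] : Br (GF F) (BF F) (Fintype.card F - 2) where
  three := by
    rintro _ _ _ ⟨e, x₀, y₀, rfl⟩ ⟨e₁, a₁, b₁, rfl⟩ ⟨e₂, x₂, y₂, rfl⟩ h1 h2 h3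
    obtain ⟨rfl, h1⟩ := pl_adj.1 h1
    obtain ⟨c, h2⟩ := pl_adj.1 h2
    obtain rfl := Bool.not_inj c
    have n : x₀ ≠ x₂ := fun c => h3 (pl_inj.2 ⟨rfl, c, by grind⟩)
    obtain ⟨τ, t1, t2⟩ := avoid x₀ x₂
    refine ⟨fun γ => ![pl e x₀ y₀, pl (!e) a₁ b₁, pl e x₂ y₂,
      pl (!e) (a₁ + (τ γ - x₂)⁻¹) (x₂ * (a₁ + (τ γ - x₂)⁻¹) - y₂), pl e (τ γ) (τ γ * a₁ - b₁ + 1),
      pl (!e) (a₁ + (τ γ - x₀)⁻¹) (x₀ * (a₁ + (τ γ - x₀)⁻¹) - y₀)], fun γ => ⟨?_, rfl, rfl, rfl⟩,
      fun γ γ' i j hi hj h => t1 ?_⟩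
    · have := t2 γ
      apply hex_of <;> grind
    · have := t2 γ
      have := t2 γ'
      fin_cases i <;> simp at hi <;> fin_cases j <;> simp at hj <;> simp [pl_inj] at h <;> grind
  four := by
    rintro _ _ _ _ ⟨e, x₀, y₀, rfl⟩ ⟨e₁, a₁, b₁, rfl⟩ ⟨e₂, x₂, y₂, rfl⟩ ⟨e₃, a₃, b₃, rfl⟩
      h1 h2 h4 h3 h5
    obtain ⟨rfl, h1⟩ := pl_adj.1 h1
    obtain ⟨c, h2⟩ := pl_adj.1 h2
    obtain rfl := Bool.not_inj c
    obtain ⟨rfl, h4⟩ := pl_adj.1 h4.symm
    have n : x₀ ≠ x₂ := fun c => h3 (pl_inj.2 ⟨rfl, c, by grind⟩)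
    have n' : a₃ ≠ a₁ := fun c => h5 (pl_inj.2 ⟨rfl, c, by grind⟩)
    obtain ⟨τ, t1, t2⟩ := avoid x₀ x₂
    refine ⟨fun γ => ![pl e x₀ y₀, pl (!e) a₁ b₁, pl e x₂ y₂, pl (!e) a₃ b₃,
      pl e (τ γ) (τ γ * a₃ - b₃), pl (!e) ((τ γ * a₃ - b₃ - y₀) * (τ γ - x₀)⁻¹)
      (x₀ * ((τ γ * a₃ - b₃ - y₀) * (τ γ - x₀)⁻¹) - y₀)], fun γ => ⟨?_, rfl, rfl, rfl, rfl⟩,
      fun γ γ' i j hi hj h => t1 ?_⟩
    · have := t2 γ
      apply hex_of <;> grind
    · have := t2 γ
      have := t2 γ'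
      fin_cases i <;> simp at hi <;> fin_cases j <;> simp at hj <;> simp [pl_inj] at h <;> grind

lemma conn : (GF F).Connected := by
  have k : ∀ {u v}, E u v → (GF F).Reachable u v := fun h => Adj.reachable h
  have hP : ∀ x y : F, (GF F).Reachable (P x y) (P 0 0) := fun x y =>
    (((k (v := L 0 (-y)) (by simp [E])).trans (k (v := P 1 y) (by simp [E]))).trans
      (k (v := L y 0) (by simp [E]))).trans (k (by simp [E]))
  have hU : ∀ x y a : F, (GF F).Reachable (U x y a) (P 0 0) := fun x y a =>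
    (k (by simp [E])).trans (hP x y)
  rw [connected_iff_exists_forall_reachable]
  refine ⟨P 0 0, fun v => Reachable.symm ?_⟩
  cases v with
  | P x y => exact hP x y
  | L a b => exact (k (by simp [E])).trans (hP 0 (-b))
  | U x y a => exact hU x y a
  | D x y a => exact (k (by simp [E])).trans (hP x y)
  | Z s c => exact (k (by simp [E])).trans (hU 0 c (s + 1))

/-- coordinates -/
def cd : Vx F → Fin 5 × F × F × F
  | P x y => (0, x, y, 0)
  | L x y => (1, x, y, 0)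
  | U x y a => (2, x, y, a)
  | D x y a => (3, x, y, a)
  | Z x y => (4, x, y, 0)

lemma cd_inj : Injective (cd : Vx F → _) := fun u v h => by
  cases u <;> cases v <;> simp_all [cd]

end

variable {q : ℕ} [Fact q.Prime]

lemma zind {c : ZMod q} (hc : c ≠ 0) (p : ZMod q → Prop) (a₀ : ZMod q) (h0 : p a₀)
    (hs : ∀ a, p a → p (a + c)) (a : ZMod q) : p a := by
  have : ∀ k : ℕ, p (a₀ + k * c) := fun k => by
    induction k with
    | zero => simpa using h0
    | succ k ih => rw [Nat.cast_succ, add_mul, one_mul, ← add_assoc]; exact hs _ ih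
  have := this ((a - a₀) / c).val
  rwa [ZMod.natCast_zmod_val, div_mul_cancel₀ _ hc, add_sub_cancel] at this

lemma links (h2 : (2 : ZMod q) ≠ 0) (v : Vx (ZMod q)) : ∃ n, 4 ≤ n ∧
    Nonempty ((GF (ZMod q)).induce ((GF (ZMod q)).neighborSet v) ≃g cycleGraph n) := by
  have key := fun u₀ w₀ h0 hw e => link_of_succ (GF (ZMod q)) v (sg v) u₀ w₀ h0 hw e
    (fun u h => (sg_spec h2 v u h).1) fun u w h h' => ⟨sg_link h2 v u w h h', by
      rintro (rfl | rfl)
      exacts [(sg_spec h2 v u h).2.1, (GF _).adj_symm (sg_spec h2 v w h').2.1]⟩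
  change ∀ u₀ w₀, E v u₀ → E v w₀ → _ → (∀ p : _ → Prop, _ → _ → ∀ u, E v u → _) → _ at key
  cases v with
  | P x y =>
    refine key (U x y 0) (D x y (-2)) (by simp [E]) (by simp [E]) (by simp [sg])
      (fun p p0 ps u hu => ?_) (by simp [sg]) (by simp [sg, h2])
    have a := zind h2 (fun a => p (U x y a)) 0 p0 fun a h => ps _ (ps _ (ps _ h))
    cases u <;> simp only [E] at hu
    · rw [eq_sub_of_add_eq' hu]; exact ps _ (a _)
    · rw [hu.1, hu.2]; exact a _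
    · rw [hu.1, hu.2]; exact ps _ (ps _ (a _))
  | L a b =>
    refine key (D 0 (-b) a) (U (-1) (-a - b) a) (by simp [E]) (by simp [E]) (by simp [sg]; ring)
      (fun p p0 ps u hu => ?_) (by simp [sg]) (by simp [sg])
    have c := zind one_ne_zero (fun x => p (D x (x * a - b) a)) 0 (by simpa using p0) fun x h => by
      have := ps _ (ps _ (ps _ h))
      simp only [sg] at this
      rwa [show (x + 1) * a - b = x * a - b + a by ring]
    cases u <;> simp only [E] at hu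
    · rw [eq_sub_of_add_eq hu]; exact ps _ (c _)
    · rw [hu.1, eq_sub_of_add_eq hu.2]; exact ps _ (ps _ (c _))
    · rw [hu.1, eq_sub_of_add_eq hu.2]; exact c _
  | U x y a =>
    refine key (P x y) (L a (x * a - y)) (by simp [E]) (by simp [E]) (by simp [sg])
      (fun p p0 ps u hu => ?_) (by simp [sg]) (by simp [sg])
    have c1 := ps _ p0
    have c2 := ps _ c1
    simp only [sg, if_pos] at c1 c2
    have c3 := ps _ c2
    have c4 := ps _ c3
    simp only [sg, add_eq_left, one_ne_zero, if_false] at c3 c4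
    cases u <;> simp only [E] at hu
    · rwa [← hu.1, ← hu.2]
    · rwa [← hu.1, eq_sub_of_add_eq' hu.2, ← hu.1]
    · rcases hu with ⟨rfl, rfl, rfl⟩ | ⟨rfl, rfl, rfl⟩
      · exact c3
      · simpa using c1
    · rwa [hu.1, hu.2]
  | D x y a =>
    refine key (P x y) (U x y (a + 2)) (by simp [E]) (by simp [E]) (by simp [sg])
      (fun p p0 ps u hu => ?_) (by simp [sg]) (by simp [sg])
    have c1 := ps _ p0
    have c2 := ps _ c1
    have c3 := ps _ c2
    simp only [sg, sub_eq_self, one_ne_zero, if_false] at c1 c2 c3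
    have c4 := ps _ c3
    cases u <;> simp only [E] at hu
    · rwa [← hu.1, ← hu.2]
    · rwa [← hu.1, eq_sub_of_add_eq' hu.2, ← hu.1]
    · rcases hu with ⟨rfl, rfl, rfl⟩ | ⟨rfl, rfl, rfl⟩
      · simpa using c2
      · exact c4
    · rwa [hu.1, hu.2]
  | Z s c =>
    refine key (U 0 c (s + 1)) (D 1 (c + (s + 1)) (s + 1)) (by simp [E]) (by simp [E]; grind)
      (by simp [sg]) (fun p p0 ps u hu => ?_) (by simp [sg]) (by simp [sg])
    have d := zind (neg_ne_zero.2 one_ne_zero)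
      (fun x => p (U x (c + (s + 2 * x + 1) * x - x ^ 2 - x) (s + 2 * x + 1))) 0
      (by simpa using p0) fun x h => by
        have := ps _ (ps _ h)
        simp only [sg] at this
        exact (congrArg p (by simp only [U.injEq]; grind)).mp this
    cases u <;> simp only [E] at hu
    · rename_i x y a
      exact (congrArg p (by simp only [U.injEq]; grind)).mp (d x)
    · rename_i x y a
      exact (congrArg p (by simp only [sg, D.injEq]; grind)).mp (ps _ (d x))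

end Pool.Agent.Lib.CD53
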